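import Mathlib

set_option autoImplicit false

open Set

namespace Pool.Agent.H239Z.Arc

/-- the closed sine curve -/
def Sn : Set (ℝ × ℝ) :=
  {p | 0 ≤ p.1 ∧ p.1 ≤ 1 ∧ -1 ≤ p.2 ∧ p.2 ≤ 1 ∧ (p.1 = 0 ∨ p.2 = Real.cos (2 * Real.pi / p.1))}

/-- the abscissae of its peaks -/
def Pk : Set ℝ := {w | (w, (1 : ℝ)) ∈ Sn}

/-- the cone over the peaks with vertex `(0, 2)` -/
def Cn : Set (ℝ × ℝ) := (fun q : ℝ × ℝ => (q.2 * q.1, 2 - q.2)) '' (Pk ×ˢ Icc (0 : ℝ) 1)

def XX : Set (ℝ × ℝ) := Sn ∪ Cn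

lemma cont_aux : Continuous (fun x : ℝ => x * Real.cos (2 * Real.pi / x)) := by
  rw [continuous_iff_continuousAt]
  intro x
  by_cases hx : x = 0
  · subst hx
    rw [ContinuousAt]
    simp only [zero_mul]
    apply squeeze_zero_norm (a := fun x : ℝ => ‖x‖)
    · intro y
      rw [norm_mul]
      exact mul_le_of_le_one_right (norm_nonneg _) (Real.abs_cos_le_one _)
    · simpa using (continuous_norm (E := ℝ)).tendsto 0
  · exact continuousAt_id.mul
      (Real.continuous_cos.continuousAt.comp (continuousAt_const.div continuousAt_id hx))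

lemma Sn_closed : IsClosed Sn := by
  have e : Sn = {p : ℝ × ℝ | 0 ≤ p.1} ∩ {p | p.1 ≤ 1} ∩ {p | -1 ≤ p.2} ∩ {p | p.2 ≤ 1} ∩
      {p | p.1 * p.2 = p.1 * Real.cos (2 * Real.pi / p.1)} := by
    ext p
    simp only [Sn, mem_ofPred_eq, mem_inter_iff, mul_eq_mul_left_iff]
    tauto
  rw [e]
  refine (((IsClosed.inter ?_ ?_).inter ?_).inter ?_).inter ?_
  · exact isClosed_le continuous_const continuous_fst
  · exact isClosed_le continuous_fst continuous_const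
  · exact isClosed_le continuous_const continuous_snd
  · exact isClosed_le continuous_snd continuous_const
  · exact isClosed_eq (continuous_fst.mul continuous_snd) (cont_aux.comp continuous_fst)

lemma Sn_compact : IsCompact Sn := by
  apply (isCompact_Icc (a := ((0 : ℝ), (-1 : ℝ))) (b := (1, 1))).of_isClosed_subset Sn_closed
  rintro p ⟨h1, h2, h3, h4, -⟩
  exact ⟨⟨h1, h3⟩, ⟨h2, h4⟩⟩

lemma Pk_compact : IsCompact Pk := by
  apply (isCompact_Icc (a := (0 : ℝ)) (b := 1)).of_isClosed_subset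
  · exact Sn_closed.preimage (f := fun w : ℝ => (w, (1 : ℝ))) (by fun_prop)
  · rintro w ⟨h1, h2, -⟩
    exact ⟨h1, h2⟩

lemma XX_compact : IsCompact XX :=
  Sn_compact.union ((Pk_compact.prod isCompact_Icc).image (by fun_prop))

lemma zero_mem_Pk : (0 : ℝ) ∈ Pk := by
  simp [Pk, Sn]

lemma inv_mem_Sn {θ : ℝ} (h : 1 ≤ θ) : (θ⁻¹, Real.cos (2 * Real.pi * θ)) ∈ Sn := by
  refine ⟨by positivity, inv_le_one_of_one_le₀ h, Real.neg_one_le_cos _, Real.cos_le_one _,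
    Or.inr ?_⟩
  simp [div_eq_mul_inv]

lemma cos_nat (k : ℕ) : Real.cos (2 * Real.pi * k) = 1 := by
  rw [mul_comm]; exact Real.cos_nat_mul_two_pi k

lemma inv_mem_Pk {k : ℕ} (h : 1 ≤ k) : (k : ℝ)⁻¹ ∈ Pk := by
  have := inv_mem_Sn (θ := k) (by exact_mod_cast h)
  rwa [cos_nat] at this

lemma mem_Cn {w r : ℝ} (hw : w ∈ Pk) (h0 : 0 ≤ r) (h1 : r ≤ 1) : (r * w, 2 - r) ∈ XX :=
  Or.inr ⟨(w, r), ⟨hw, h0, h1⟩, rfl⟩

lemma a_mem : ((0 : ℝ), (2 : ℝ)) ∈ XX := by
  simpa using mem_Cn zero_mem_Pk le_rfl zero_le_one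

lemma b_mem : ((1 : ℝ), (1 : ℝ)) ∈ XX := by
  have := inv_mem_Pk (k := 1) le_rfl
  simp only [Nat.cast_one, inv_one] at this
  exact Or.inl this

/-- Lipschitz paths in `XX`, parametrised by the whole line -/
def Gd (L : NNReal) (p q : ℝ × ℝ) : Prop :=
  ∃ f : ℝ → ℝ × ℝ, LipschitzWith L f ∧ (∀ t, t ≤ 0 → f t = p) ∧ (∀ t, 1 ≤ t → f t = q) ∧
    ∀ t, f t ∈ XX

lemma Gd.mono {L L' : NNReal} {p q : ℝ × ℝ} (h : Gd L p q) (hL : L ≤ L') : Gd L' p q := by
  obtain ⟨f, h1, h2⟩ := h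
  exact ⟨f, h1.weaken hL, h2⟩

lemma Gd.symm {L : NNReal} {p q : ℝ × ℝ} (h : Gd L p q) : Gd L q p := by
  obtain ⟨f, h1, h2, h3, h4⟩ := h
  refine ⟨fun t => f (1 - t), ?_, fun t ht => h3 _ (by linarith), fun t ht => h2 _ (by linarith),
    fun t => h4 _⟩
  apply LipschitzWith.of_dist_le_mul
  intro s t
  have := h1.dist_le_mul (1 - s) (1 - t)
  rwa [dist_sub_left] at this

lemma Gd.trans' {L : NNReal} {p q r : ℝ × ℝ} (h : Gd L p q) (h' : Gd L q r) :
    ∃ f : ℝ → ℝ × ℝ, LipschitzWith (4 * L) f ∧ (∀ t, t ≤ 0 → f t = p) ∧ (∀ t, 1 ≤ t → f t = r) ∧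
    (∀ t, f t ∈ XX) ∧ f (1 / 2) = q := by
  obtain ⟨f, h1, h2, h3, h4⟩ := h
  obtain ⟨g, k1, k2, k3, k4⟩ := h'
  refine ⟨fun t => f (2 * t) + g (2 * t - 1) - q, ?_, ?_, ?_, ?_, ?_⟩
  · apply LipschitzWith.of_dist_le_mul
    intro s t
    rw [dist_sub_right]
    have a1 := h1.dist_le_mul (2 * s) (2 * t)
    have a2 := k1.dist_le_mul (2 * s - 1) (2 * t - 1)
    rw [dist_sub_right] at a2
    have a3 : dist (2 * s) (2 * t) = 2 * dist s t := by
      rw [Real.dist_eq, Real.dist_eq, ← mul_sub, abs_mul]; norm_num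
    have a4 := dist_add_add_le (f (2 * s)) (g (2 * s - 1)) (f (2 * t)) (g (2 * t - 1))
    rw [a3] at a1 a2
    push_cast
    linarith
  · intro t ht
    simp only
    rw [h2 _ (by linarith), k2 _ (by linarith)]; simp
  · intro t ht
    simp only
    rw [h3 _ (by linarith), k3 _ (by linarith)]; simp
  · intro t
    simp only
    rcases le_total t (1 / 2) with ht | ht
    · rw [k2 _ (by linarith)]; simpa using h4 _
    · rw [h3 _ (by linarith)]; simpa using k4 _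
  · simp only
    rw [h3 _ (by norm_num), k2 _ (by norm_num)]; simp

lemma Gd.trans {L : NNReal} {p q r : ℝ × ℝ} (h : Gd L p q) (h' : Gd L q r) : Gd (4 * L) p r := by
  obtain ⟨f, h1, h2, h3, h4, -⟩ := h.trans' h'
  exact ⟨f, h1, h2, h3, h4⟩

/-- clamp to the unit interval -/
noncomputable def cl (t : ℝ) : ℝ := max 0 (min t 1)

lemma cl_nonneg (t : ℝ) : 0 ≤ cl t := le_max_left _ _
lemma cl_le (t : ℝ) : cl t ≤ 1 := max_le zero_le_one (min_le_right _ _)
lemma cl_of_le {t : ℝ} (h : t ≤ 0) : cl t = 0 := max_eq_left ((min_le_left _ _).trans h)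
lemma cl_of_ge {t : ℝ} (h : 1 ≤ t) : cl t = 1 := by
  rw [cl, min_eq_right h]; exact max_eq_right zero_le_one
lemma cl_lip (s t : ℝ) : |cl s - cl t| ≤ |s - t| := by
  unfold cl
  refine (abs_max_sub_max_le_max _ _ _ _).trans ?_
  simp only [sub_self, abs_zero]
  refine max_le (abs_nonneg _) ((abs_min_sub_min_le_max _ _ _ _).trans ?_)
  simp

lemma Gd.of_fun {L : NNReal} (g : ℝ → ℝ × ℝ)
    (h1 : ∀ s t, 0 ≤ s → s ≤ 1 → 0 ≤ t → t ≤ 1 → dist (g s) (g t) ≤ L * |s - t|)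
    (h2 : ∀ s, 0 ≤ s → s ≤ 1 → g s ∈ XX) : Gd L (g 0) (g 1) := by
  refine ⟨fun t => g (cl t), ?_, fun t ht => by simp only [cl_of_le ht],
    fun t ht => by simp only [cl_of_ge ht], fun t => h2 _ (cl_nonneg t) (cl_le t)⟩
  apply LipschitzWith.of_dist_le_mul
  intro s t
  refine (h1 _ _ (cl_nonneg s) (cl_le s) (cl_nonneg t) (cl_le t)).trans ?_
  rw [Real.dist_eq]
  exact mul_le_mul_of_nonneg_left (cl_lip s t) L.2

lemma gd_cone {w r : ℝ} (hw : w ∈ Pk) (h0 : 0 ≤ r) (h1 : r ≤ 1) :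
    Gd 7 (0, 2) (r * w, 2 - r) := by
  have := Gd.of_fun (L := 7) (fun s => (s * r * w, 2 - s * r)) ?_ ?_
  · simpa using this
  · intro s t _ _ _ _
    have hw0 : 0 ≤ w := hw.1
    have hw1 : w ≤ 1 := hw.2.1
    rw [Prod.dist_eq, Real.dist_eq, Real.dist_eq]
    have e1 : s * r * w - t * r * w = (s - t) * (r * w) := by ring
    have e2 : 2 - s * r - (2 - t * r) = -((s - t) * r) := by ring
    simp only
    rw [e1, e2, abs_neg, abs_mul, abs_mul (s - t), abs_of_nonneg (mul_nonneg h0 hw0),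
      abs_of_nonneg h0]
    have := abs_nonneg (s - t)
    have h3 : r * w ≤ 1 := mul_le_one₀ h1 hw0 hw1
    push_cast
    apply max_le <;> nlinarith
  · intro s hs0 hs1
    exact mem_Cn hw (mul_nonneg hs0 h0) (mul_le_one₀ hs1 h0 h1)

lemma gd_axis {y : ℝ} (h0 : -1 ≤ y) (h1 : y ≤ 1) : Gd 7 (0, 1) (0, y) := by
  have := Gd.of_fun (L := 7) (fun s => (0, 1 - s * (1 - y))) ?_ ?_
  · simpa using this
  · intro s t _ _ _ _
    rw [Prod.dist_eq, Real.dist_eq, Real.dist_eq]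
    have e2 : 1 - s * (1 - y) - (1 - t * (1 - y)) = -((s - t) * (1 - y)) := by ring
    simp only
    rw [e2, abs_neg, abs_mul, abs_of_nonneg (show 0 ≤ 1 - y by linarith)]
    have := abs_nonneg (s - t)
    push_cast
    apply max_le
    · simp
    · nlinarith
  · intro s hs0 hs1
    refine Or.inl ⟨le_rfl, zero_le_one, ?_, ?_, Or.inl rfl⟩
    · simp only; nlinarith
    · simp only; nlinarith

lemma gd_wave {k θ : ℝ} (hk : 1 ≤ k) (h0 : k ≤ θ) (h1 : θ ≤ k + 1) :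
    Gd 7 (k⁻¹, Real.cos (2 * Real.pi * k)) (θ⁻¹, Real.cos (2 * Real.pi * θ)) := by
  have := Gd.of_fun (L := 7)
    (fun s => ((k + s * (θ - k))⁻¹, Real.cos (2 * Real.pi * (k + s * (θ - k))))) ?_ ?_
  · simpa using this
  · intro s t hs _ ht _
    have hd0 : 0 ≤ θ - k := by linarith
    have hd1 : θ - k ≤ 1 := by linarith
    have ha : 1 ≤ k + s * (θ - k) := by nlinarith
    have hb : 1 ≤ k + t * (θ - k) := by nlinarith
    have hab : |k + s * (θ - k) - (k + t * (θ - k))| ≤ |s - t| := by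
      have : k + s * (θ - k) - (k + t * (θ - k)) = (s - t) * (θ - k) := by ring
      rw [this, abs_mul, abs_of_nonneg hd0]
      exact mul_le_of_le_one_right (abs_nonneg _) hd1
    set A := k + s * (θ - k)
    set B := k + t * (θ - k)
    rw [Prod.dist_eq, Real.dist_eq, Real.dist_eq]
    simp only
    have hst := abs_nonneg (s - t)
    push_cast
    apply max_le
    · have e : A⁻¹ - B⁻¹ = -(A - B) * (A * B)⁻¹ := by field_simp; ring
      have hAB : 1 ≤ A * B := by nlinarith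
      rw [e, abs_mul, abs_neg, abs_of_nonneg (show 0 ≤ (A * B)⁻¹ by positivity)]
      have := mul_le_of_le_one_right (abs_nonneg (A - B)) (inv_le_one_of_one_le₀ hAB)
      linarith
    · refine (Real.abs_cos_sub_cos_le _ _).trans ?_
      rw [← mul_sub, abs_mul, abs_of_nonneg (show 0 ≤ 2 * Real.pi by positivity)]
      have := Real.pi_lt_d2
      have h5 := abs_nonneg (A - B)
      nlinarith
  · intro s hs0 hs1
    exact Or.inl (inv_mem_Sn (by nlinarith))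

lemma gd_all {p : ℝ × ℝ} (hp : p ∈ XX) : Gd 28 (0, 2) p := by
  have e : (28 : NNReal) = 4 * 7 := by norm_num
  rcases hp with hp | ⟨⟨w, r⟩, ⟨hw, h0, h1⟩, rfl⟩
  · obtain ⟨x, y⟩ := p
    obtain ⟨h1, h2, h3, h4, h5⟩ := hp
    simp only at h1 h2 h3 h4 h5
    by_cases hx : x = 0
    · subst hx
      have a1 := gd_cone zero_mem_Pk zero_le_one le_rfl
      have a2 : ((1 : ℝ) * 0, (2 : ℝ) - 1) = (0, 1) := by norm_num
      rw [a2] at a1
      rw [e]
      exact a1.trans (gd_axis h3 h4)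
    · have hy := h5.resolve_left hx
      have hx0 : 0 < x := lt_of_le_of_ne h1 (Ne.symm hx)
      have hθ : 1 ≤ x⁻¹ := (one_le_inv₀ hx0).2 h2
      have hk : 1 ≤ ⌊x⁻¹⌋₊ := Nat.le_floor (by exact_mod_cast hθ)
      have a1 := gd_cone (inv_mem_Pk hk) zero_le_one le_rfl
      have a2 := gd_wave (k := ⌊x⁻¹⌋₊) (θ := x⁻¹) (by exact_mod_cast hk)
        (Nat.floor_le (by positivity)) (Nat.lt_floor_add_one _).le
      rw [cos_nat, inv_inv, ← div_eq_mul_inv, ← hy] at a2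
      have a3 : ((1 : ℝ) * (⌊x⁻¹⌋₊ : ℝ)⁻¹, (2 : ℝ) - 1) = ((⌊x⁻¹⌋₊ : ℝ)⁻¹, 1) := by norm_num
      rw [a3] at a1
      rw [e]
      exact a1.trans a2
  · exact (gd_cone hw h0 h1).mono (by norm_num)

/-- projection from the vertex -/
noncomputable def hh (p : ℝ × ℝ) : ℝ := p.1 / min 1 (2 - p.2)

lemma lt_two {p : ℝ × ℝ} (hp : p ∈ XX) (hne : p ≠ (0, 2)) : p.2 < 2 := by
  rcases hp with hp | ⟨⟨w, r⟩, ⟨-, h0, -⟩, rfl⟩
  · linarith [hp.2.2.2.1]
  · simp only at h0 hne ⊢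
    rcases h0.eq_or_lt with h | h
    · subst h; simp at hne
    · linarith

lemma level {p : ℝ × ℝ} (hp : p ∈ XX) (h2 : p.2 < 2) {m : ℕ} (hm : 0 < m) (h : hh p = 2 / m) :
    (Even m → 1 ≤ p.2) ∧ (Odd m → p.2 = -1) := by
  have hm' : (0 : ℝ) < m := by exact_mod_cast hm
  have hc : Real.cos (2 * Real.pi / (2 / m)) = (-1) ^ m := by
    rw [← Real.cos_nat_mul_pi]; congr 1; field_simp
  have hne : (2 : ℝ) / m ≠ 0 := by positivity
  rcases hp with hp | ⟨⟨w, r⟩, ⟨hw, h0, h1⟩, rfl⟩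
  · obtain ⟨-, -, -, h4, h5⟩ := hp
    rw [hh, min_eq_left (by linarith), div_one] at h
    rw [h] at h5
    have := h5.resolve_left hne
    rw [hc] at this
    exact ⟨fun he => by rw [this, he.neg_one_pow], fun ho => by rw [this, ho.neg_one_pow]⟩
  · simp only at h0 h1 h2 hw ⊢
    have hr : 0 < r := by linarith
    have e : hh (r * w, 2 - r) = w := by
      simp only [hh, sub_sub_cancel]
      rw [min_eq_right h1]; field_simp
    rw [e] at h
    have h5 := hw.2.2.2.2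
    simp only at h5
    rw [h] at h5
    have := h5.resolve_left hne
    rw [hc] at this
    refine ⟨fun _ => by linarith, fun ho => ?_⟩
    rw [ho.neg_one_pow] at this
    norm_num at this

end Pool.Agent.H239Z.Arc
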