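import Mathlib
import Pool.Agent.H239Z.ArcSpace

set_option autoImplicit false

open Set

namespace Pool.Agent.H239Z.Arc

instance : CompactSpace XX := isCompact_iff_compactSpace.1 XX_compact

def pa : XX := ⟨(0, 2), a_mem⟩
def pb : XX := ⟨(1, 1), b_mem⟩

lemma exists_path (p x q : XX) :
    ∃ γ : Path p q, LipschitzWith (4 * (4 * 28)) γ ∧ x ∈ range γ := by
  have h1 : Gd (4 * 28) p.1 x.1 := (gd_all p.2).symm.trans (gd_all x.2)
  have h2 : Gd (4 * 28) x.1 q.1 := (gd_all x.2).symm.trans (gd_all q.2)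
  obtain ⟨f, k1, k2, k3, k4, k5⟩ := h1.trans' h2
  refine ⟨⟨⟨fun t => ⟨f t, k4 t⟩, ?_⟩, ?_, ?_⟩, ?_, ⟨⟨1 / 2, by norm_num, by norm_num⟩, ?_⟩⟩
  · exact (k1.continuous.comp continuous_subtype_val).subtype_mk _
  · exact Subtype.ext (k2 _ le_rfl)
  · exact Subtype.ext (k3 _ le_rfl)
  · apply LipschitzWith.of_dist_le_mul
    intro s t
    exact k1.dist_le_mul s t
  · exact Subtype.ext k5

instance : ConnectedSpace XX := by
  have : PathConnectedSpace XX := ⟨⟨pa⟩, fun p q => by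
    obtain ⟨γ, -⟩ := exists_path p p q
    exact ⟨γ⟩⟩
  infer_instance

lemma uniform_of_lip {X : Type} [MetricSpace X] (L : NNReal) (ε : ℝ) (hε : 0 < ε) :
    ∃ n : ℕ, ∀ (a b : X) (p : Path a b), LipschitzWith L p → ∃ t : Fin (n + 1) → unitInterval,
      t 0 = 0 ∧ t (Fin.last n) = 1 ∧ StrictMono t ∧
      ∀ i : Fin n, Metric.diam (⇑p '' Set.Icc (t i.castSucc) (t i.succ)) ≤ ε := by
  obtain ⟨n, hn⟩ := exists_nat_gt ((L : ℝ) / ε)
  have hn0 : (0 : ℝ) < n := lt_of_le_of_lt (by positivity) hn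
  refine ⟨n, fun a b p hp => ⟨fun i => ⟨(i : ℕ) / n, by positivity, ?_⟩, ?_, ?_, ?_, ?_⟩⟩
  · rw [div_le_one hn0]
    exact_mod_cast Nat.lt_succ_iff.1 i.2
  · apply Subtype.ext; simp
  · apply Subtype.ext
    simp only [Fin.val_last, Icc.coe_one]
    exact div_self hn0.ne'
  · intro i j hij
    show ((i : ℕ) : ℝ) / n < ((j : ℕ) : ℝ) / n
    apply div_lt_div_of_pos_right _ hn0
    exact_mod_cast hij
  · intro i
    apply Metric.diam_le_of_forall_dist_le hε.le
    rintro _ ⟨s, ⟨hs1, hs2⟩, rfl⟩ _ ⟨t, ⟨ht1, ht2⟩, rfl⟩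
    have a1 : ((i : ℕ) : ℝ) / n ≤ s := hs1
    have a2 : (s : ℝ) ≤ (((i : ℕ) + 1 : ℕ) : ℝ) / n := hs2
    have a3 : ((i : ℕ) : ℝ) / n ≤ t := ht1
    have a4 : (t : ℝ) ≤ (((i : ℕ) + 1 : ℕ) : ℝ) / n := ht2
    push_cast at a2 a4
    rw [add_div] at a2 a4
    have a5 : dist s t ≤ 1 / n := by
      rw [Subtype.dist_eq, Real.dist_eq, abs_le]
      constructor <;> linarith
    refine (hp.dist_le_mul s t).trans ?_
    have a6 : (L : ℝ) * dist s t ≤ L * (1 / n) := mul_le_mul_of_nonneg_left a5 L.2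
    refine a6.trans ?_
    rw [mul_one_div, div_le_iff₀ hn0]
    rw [div_lt_iff₀ hε] at hn
    linarith

lemma path_uniform (a b : XX) : ∃ P : Set (Path a b),
    (∀ ε : ℝ, ε > 0 → ∃ n : ℕ, ∀ p ∈ P, ∃ t : Fin (n + 1) → unitInterval,
        t 0 = 0 ∧ t (Fin.last n) = 1 ∧ StrictMono t ∧
        ∀ i : Fin n, Metric.diam (⇑p '' Set.Icc (t i.castSucc) (t i.succ)) ≤ ε) ∧
    (⋃ p ∈ P, Set.range ⇑p) = Set.univ := by
  refine ⟨{p | LipschitzWith (4 * (4 * 28)) p}, fun ε hε => ?_, ?_⟩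
  · obtain ⟨n, hn⟩ := uniform_of_lip (X := XX) (4 * (4 * 28)) ε hε
    exact ⟨n, fun p hp => hn a b p hp⟩
  · rw [eq_univ_iff_forall]
    intro x
    obtain ⟨γ, h1, h2⟩ := exists_path a x b
    exact mem_biUnion (t := fun p : Path a b => Set.range ⇑p) h1 h2

/-- height of the arc through the `N`-th peak -/
noncomputable def yy (N : ℕ) (x : ℝ) : ℝ :=
  max (2 - N * x) 1 + Real.cos (2 * Real.pi * (max x (N : ℝ)⁻¹)⁻¹) - 1

lemma yy_cont {N : ℕ} (hN : 1 ≤ N) : Continuous (yy N) := by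
  have hN0 : (0 : ℝ) < N := by exact_mod_cast hN
  have h1 : Continuous fun x : ℝ => (max x (N : ℝ)⁻¹)⁻¹ :=
    (continuous_id.max continuous_const).inv₀ fun x =>
      (lt_of_lt_of_le (inv_pos.2 hN0) (le_max_right _ _)).ne'
  unfold yy
  fun_prop

lemma yy_left {N : ℕ} (hN : 1 ≤ N) {x : ℝ} (hx : x ≤ (N : ℝ)⁻¹) : yy N x = 2 - N * x := by
  have hN0 : (0 : ℝ) < N := by exact_mod_cast hN
  have h1 : (N : ℝ) * x ≤ 1 := by
    have := mul_le_mul_of_nonneg_left hx hN0.le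
    rwa [mul_inv_cancel₀ hN0.ne'] at this
  rw [yy, max_eq_right hx, inv_inv, cos_nat, max_eq_left (by linarith)]
  ring

lemma yy_right {N : ℕ} (hN : 1 ≤ N) {x : ℝ} (hx : (N : ℝ)⁻¹ ≤ x) :
    yy N x = Real.cos (2 * Real.pi * x⁻¹) := by
  have hN0 : (0 : ℝ) < N := by exact_mod_cast hN
  have h1 : 1 ≤ (N : ℝ) * x := by
    have := mul_le_mul_of_nonneg_left hx hN0.le
    rwa [mul_inv_cancel₀ hN0.ne'] at this
  rw [yy, max_eq_left hx, max_eq_right (by linarith)]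
  ring

lemma yy_mem {N : ℕ} (hN : 1 ≤ N) {x : ℝ} (h0 : 0 ≤ x) (h1 : x ≤ 1) : (x, yy N x) ∈ XX := by
  have hN0 : (0 : ℝ) < N := by exact_mod_cast hN
  rcases le_total x (N : ℝ)⁻¹ with hx | hx
  · rw [yy_left hN hx]
    have h2 : (N : ℝ) * x ≤ 1 := by
      have := mul_le_mul_of_nonneg_left hx hN0.le
      rwa [mul_inv_cancel₀ hN0.ne'] at this
    have := mem_Cn (inv_mem_Pk hN) (r := N * x) (by positivity) h2
    have e : (N : ℝ) * x * (N : ℝ)⁻¹ = x := by field_simp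
    rwa [e] at this
  · rw [yy_right hN hx]
    have hx0 : 0 < x := lt_of_lt_of_le (inv_pos.2 hN0) hx
    have := inv_mem_Sn (θ := x⁻¹) ((one_le_inv₀ hx0).2 h1)
    rw [inv_inv] at this
    exact Or.inl this

lemma exists_arc {N : ℕ} (hN : 1 ≤ N) : ∃ q : Path pa pb, Function.Injective q ∧
    ∃ s, (q s).1 = ((N : ℝ)⁻¹, 1) := by
  have hN1 : (1 : ℝ) ≤ N := by exact_mod_cast hN
  have hN0 : (0 : ℝ) < N := by linarith
  refine ⟨⟨⟨fun t => ⟨(t, yy N t), yy_mem hN t.2.1 t.2.2⟩, ?_⟩, ?_, ?_⟩, ?_,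
    ⟨⟨(N : ℝ)⁻¹, by positivity, inv_le_one_of_one_le₀ hN1⟩, ?_⟩⟩
  · exact (continuous_subtype_val.prodMk
      ((yy_cont hN).comp continuous_subtype_val)).subtype_mk _
  · apply Subtype.ext
    show ((0 : ℝ), yy N 0) = (0, 2)
    rw [yy_left hN (by positivity)]; simp
  · apply Subtype.ext
    show ((1 : ℝ), yy N 1) = (1, 1)
    rw [yy_right hN (inv_le_one_of_one_le₀ hN1)]; simp
  · intro s t hst
    apply Subtype.ext
    exact congrArg (fun p : XX => p.1.1) hst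
  · show (((N : ℝ)⁻¹), yy N (N : ℝ)⁻¹) = ((N : ℝ)⁻¹, 1)
    rw [yy_left hN le_rfl, mul_inv_cancel₀ hN0.ne']; norm_num

lemma long_arc (n : ℕ) (p : Path pa pb) (hp : Function.Injective p) (τ : unitInterval)
    (hτ : (p τ).1 = (((n + 2 : ℕ) : ℝ)⁻¹, 1)) (t : Fin (n + 1) → unitInterval)
    (t0 : t 0 = 0) (t1 : t (Fin.last n) = 1)
    (hd : ∀ i : Fin n, Metric.diam (⇑p '' Set.Icc (t i.castSucc) (t i.succ)) ≤ 1) : False := by
  have hτ0 : τ ≠ 0 := by
    rintro rfl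
    rw [p.source] at hτ
    have := congrArg Prod.snd hτ
    norm_num [pa] at this
  have hlt : ∀ s, τ ≤ s → (p s).1.2 < 2 := by
    intro s hs
    apply lt_two (p s).2
    intro h
    have h1 : p s = p 0 := by rw [p.source]; exact Subtype.ext h
    have h2 := hp h1
    subst h2
    exact hτ0 (le_antisymm hs τ.2.1)
  have hc : ContinuousOn (fun s => hh (p s).1) (Ici τ) := by
    have c1 : Continuous fun s => (p s).1 := continuous_subtype_val.comp p.continuous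
    unfold hh
    apply ContinuousOn.div (continuous_fst.comp c1).continuousOn
      (continuous_const.min (continuous_const.sub (continuous_snd.comp c1))).continuousOn
    intro s hs
    have := hlt s hs
    exact (lt_min one_pos (sub_pos.2 this)).ne'
  have h1 : hh (p 1).1 = 1 := by
    rw [p.target]; norm_num [pb, hh]
  have key : ∀ j : ℕ, j ≤ n → ∃ σ, τ ≤ σ ∧ hh (p σ).1 = 2 / ((2 * n + 4 - j : ℕ) : ℝ) ∧
      ∀ i : Fin (n + 1), (i : ℕ) = j → t i ≤ σ := by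
    intro j
    induction j with
    | zero =>
      intro _
      refine ⟨τ, le_rfl, ?_, ?_⟩
      · rw [hτ]
        simp only [hh, Nat.sub_zero]
        push_cast
        rw [show (2 : ℝ) - 1 = 1 by norm_num, min_self]
        field_simp
        ring
      · intro i hi
        have : i = 0 := Fin.ext hi
        rw [this, t0]
        exact τ.2.1
    | succ j ih =>
      intro hj
      obtain ⟨σ, s1, s2, s3⟩ := ih (by omega)
      obtain ⟨m, hm⟩ : ∃ m : ℕ, 2 * n + 4 - (j + 1) = m := ⟨_, rfl⟩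
      have hm1 : 2 * n + 4 - j = m + 1 := by omega
      have hm2 : 2 ≤ m := by omega
      have hm2' : (2 : ℝ) ≤ m := by exact_mod_cast hm2
      rw [hm1] at s2
      rw [hm]
      have hiv := intermediate_value_Icc (show σ ≤ 1 from σ.2.2)
        (hc.mono (fun s hs => le_trans s1 hs.1))
      have hmem : (2 : ℝ) / m ∈ Icc (hh (p σ).1) (hh (p 1).1) := by
        rw [s2, h1]
        constructor
        · apply div_le_div_of_nonneg_left (by norm_num) (by linarith)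
          push_cast; linarith
        · rw [div_le_one (by linarith)]; exact hm2'
      obtain ⟨σ', ⟨u1, -⟩, u2⟩ := hiv hmem
      simp only at u2
      refine ⟨σ', s1.trans u1, u2, ?_⟩
      intro i hi
      by_contra hn
      push Not at hn
      have hjn : j < n := by omega
      have e1 : i = (⟨j, hjn⟩ : Fin n).succ := Fin.ext (by simpa using hi)
      have v1 : t (⟨j, hjn⟩ : Fin n).castSucc ≤ σ := s3 _ rfl
      rw [e1] at hn
      have hdist : dist (p σ) (p σ') ≤ 1 := by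
        refine le_trans (Metric.dist_le_diam_of_mem Metric.isBounded_of_compactSpace ?_ ?_)
          (hd ⟨j, hjn⟩)
        · exact ⟨σ, ⟨v1, u1.trans hn.le⟩, rfl⟩
        · exact ⟨σ', ⟨v1.trans u1, hn.le⟩, rfl⟩
      have hd2 : |(p σ).1.2 - (p σ').1.2| ≤ 1 := by
        rw [Subtype.dist_eq, Prod.dist_eq] at hdist
        rw [← Real.dist_eq]
        exact (le_max_right _ _).trans hdist
      have l1 := level (p σ).2 (hlt σ s1) (m := m + 1) (by omega) s2
      have l2 := level (p σ').2 (hlt σ' (s1.trans u1)) (m := m) (by omega) u2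
      rw [abs_le] at hd2
      rcases Nat.even_or_odd m with he | ho
      · have a1 := l1.2 he.add_one
        have a2 := l2.1 he
        linarith [hd2.1]
      · have a1 := l1.1 ho.add_one
        have a2 := l2.2 ho
        linarith [hd2.2]
  obtain ⟨σ, -, s2, s3⟩ := key n le_rfl
  have h2 : σ = 1 := le_antisymm σ.2.2 (t1 ▸ s3 (Fin.last n) rfl)
  rw [h2, h1, show 2 * n + 4 - n = n + 4 by omega, eq_div_iff (by positivity)] at s2
  push_cast at s2
  have : (0 : ℝ) ≤ n := by positivity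
  linarith

lemma not_arc_uniform : ¬ ∃ P : Set (Path pa pb),
    (∀ p ∈ P, Function.Injective ⇑p) ∧
    (∀ ε : ℝ, ε > 0 → ∃ n : ℕ, ∀ p ∈ P, ∃ t : Fin (n + 1) → unitInterval,
        t 0 = 0 ∧ t (Fin.last n) = 1 ∧ StrictMono t ∧
        ∀ i : Fin n, Metric.diam (⇑p '' Set.Icc (t i.castSucc) (t i.succ)) ≤ ε) ∧
    (⋃ p ∈ P, Set.range ⇑p) =
      ⋃ (q : Path pa pb) (_ : Function.Injective ⇑q), Set.range ⇑q := by
  rintro ⟨P, h1, h2, h3⟩
  obtain ⟨n, hn⟩ := h2 1 one_pos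
  obtain ⟨q, q1, s, q2⟩ := exists_arc (N := n + 2) (by omega)
  have hmem : q s ∈ ⋃ p ∈ P, Set.range ⇑p := by
    rw [h3]
    exact mem_iUnion₂.2 ⟨q, q1, s, rfl⟩
  obtain ⟨p, hp, τ, hτ⟩ := mem_iUnion₂.1 hmem
  obtain ⟨t, t0, t1, -, hd⟩ := hn p hp
  exact long_arc n p (h1 p hp) τ (hτ ▸ q2) t t0 t1 hd

end Pool.Agent.H239Z.Arc
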