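import Mathlib

set_option autoImplicit false

namespace Pool.Agent.H239Z.Hopf

/-- odd septic in `t` with even coefficients in `y` -/
noncomputable def G (a b c e : ℝ) (t y : ℝ) : ℝ :=
  a * y ^ 6 * t + b * y ^ 4 * t ^ 3 + c * y ^ 2 * t ^ 5 + e * t ^ 7

noncomputable def Gt (a b c e : ℝ) (t y : ℝ) : ℝ :=
  a * y ^ 6 + 3 * b * y ^ 4 * t ^ 2 + 5 * c * y ^ 2 * t ^ 4 + 7 * e * t ^ 6

noncomputable def Gtt (b c e : ℝ) (t y : ℝ) : ℝ :=
  6 * b * y ^ 4 * t + 20 * c * y ^ 2 * t ^ 3 + 42 * e * t ^ 5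

noncomputable def Gy (a b c : ℝ) (t y : ℝ) : ℝ :=
  6 * a * y ^ 5 * t + 4 * b * y ^ 3 * t ^ 3 + 2 * c * y * t ^ 5

noncomputable def Gyy (a b c : ℝ) (t y : ℝ) : ℝ :=
  30 * a * y ^ 4 * t + 12 * b * y ^ 2 * t ^ 3 + 2 * c * t ^ 5

lemma hasDerivAt_G_t (a b c e t y : ℝ) :
    HasDerivAt (fun τ => G a b c e τ y) (Gt a b c e t y) t := by
  unfold G Gt
  have h := ((((hasDerivAt_id t).const_mul (a * y ^ 6)).add
    ((hasDerivAt_pow 3 t).const_mul (b * y ^ 4))).add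
    ((hasDerivAt_pow 5 t).const_mul (c * y ^ 2))).add ((hasDerivAt_pow 7 t).const_mul e)
  exact HasDerivAt.congr_deriv h (by norm_num; ring)

lemma hasDerivAt_Gt_t (a b c e t y : ℝ) :
    HasDerivAt (fun τ => Gt a b c e τ y) (Gtt b c e t y) t := by
  unfold Gt Gtt
  have h := (((hasDerivAt_const t (a * y ^ 6)).add
    ((hasDerivAt_pow 2 t).const_mul (3 * b * y ^ 4))).add
    ((hasDerivAt_pow 4 t).const_mul (5 * c * y ^ 2))).add ((hasDerivAt_pow 6 t).const_mul (7 * e))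
  exact HasDerivAt.congr_deriv h (by norm_num; ring)

lemma hasDerivAt_G_y (a b c e t y : ℝ) :
    HasDerivAt (fun z => G a b c e t z) (Gy a b c t y) y := by
  unfold G Gy
  have h := (((((hasDerivAt_pow 6 y).const_mul a).mul_const t).add
    (((hasDerivAt_pow 4 y).const_mul b).mul_const (t ^ 3))).add
    (((hasDerivAt_pow 2 y).const_mul c).mul_const (t ^ 5))).add (hasDerivAt_const y (e * t ^ 7))
  exact HasDerivAt.congr_deriv h (by norm_num; ring)

lemma hasDerivAt_Gy_y (a b c t y : ℝ) :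
    HasDerivAt (fun z => Gy a b c t z) (Gyy a b c t y) y := by
  unfold Gy Gyy
  have h := ((((hasDerivAt_pow 5 y).const_mul (6 * a)).mul_const t).add
    (((hasDerivAt_pow 3 y).const_mul (4 * b)).mul_const (t ^ 3))).add
    (((hasDerivAt_id y).const_mul (2 * c)).mul_const (t ^ 5))
  exact HasDerivAt.congr_deriv h (by norm_num; ring)

noncomputable def U (t y : ℝ) : ℝ := G 200000 (-4000) 1000 20 t y
noncomputable def V (t y : ℝ) : ℝ := G 199800 (-3995) 996 18 t y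
noncomputable def LU (t y : ℝ) : ℝ := Gtt (-4000) 1000 20 t y + Gyy 200000 (-4000) 1000 t y
noncomputable def LV (t y : ℝ) : ℝ := Gtt (-3995) 996 18 t y + Gyy 199800 (-3995) 996 t y

lemma cubic_pos {a b c e X r : ℝ} (ha : 0 < a) (he : 0 < e) (hd : b ^ 2 ≤ 4 * a * c)
    (hX : 0 < X) (hr : 0 ≤ r) : 0 < a * r ^ 3 + b * r ^ 2 * X + c * r * X ^ 2 + e * X ^ 3 := by
  have h1 : 0 ≤ a * r ^ 2 + b * r * X + c * X ^ 2 := by
    have h2 : 0 ≤ 4 * a * (a * r ^ 2 + b * r * X + c * X ^ 2) := by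
      nlinarith [sq_nonneg (2 * a * r + b * X), mul_nonneg (sub_nonneg.2 hd) (sq_nonneg X)]
    by_contra hn
    push Not at hn
    nlinarith
  have h3 : 0 ≤ r * (a * r ^ 2 + b * r * X + c * X ^ 2) := mul_nonneg hr h1
  have h4 : 0 < e * X ^ 3 := by positivity
  nlinarith

lemma G_pos {a b c e : ℝ} (ha : 0 < a) (he : 0 < e) (hd : b ^ 2 ≤ 4 * a * c) {t : ℝ} (ht : 0 < t)
    (y : ℝ) : 0 < G a b c e t y := by
  have h := cubic_pos ha he hd (X := t ^ 2) (r := y ^ 2) (by positivity) (by positivity)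
  have h2 := mul_pos ht h
  unfold G
  nlinarith

lemma Gt_pos {a b c e : ℝ} (ha : 0 < a) (he : 0 < e) (hd : (3 * b) ^ 2 ≤ 4 * a * (5 * c)) {t : ℝ}
    (ht : t ≠ 0) (y : ℝ) : 0 < Gt a b c e t y := by
  have h := cubic_pos (e := 7 * e) ha (by positivity) hd (X := t ^ 2) (r := y ^ 2)
    (by positivity) (by positivity)
  unfold Gt
  nlinarith

lemma U_pos {t : ℝ} (ht : 0 < t) (y : ℝ) : 0 < U t y :=
  G_pos (by norm_num) (by norm_num) (by norm_num) ht y

lemma V_pos {t : ℝ} (ht : 0 < t) (y : ℝ) : 0 < V t y :=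
  G_pos (by norm_num) (by norm_num) (by norm_num) ht y

lemma phi_pos {t : ℝ} (ht : 0 < t) (y : ℝ) : 0 < G 200 (-5) 4 2 t y :=
  G_pos (by norm_num) (by norm_num) (by norm_num) ht y

lemma U_sub_V (t y : ℝ) : U t y - V t y = G 200 (-5) 4 2 t y := by
  unfold U V G; ring

lemma V_lt_U {t : ℝ} (ht : 0 < t) (y : ℝ) : V t y < U t y := by
  have := phi_pos ht y
  rw [← U_sub_V] at this
  linarith

lemma V_mono (y : ℝ) : MonotoneOn (fun τ => V τ y) (Set.Ioi 0) := by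
  apply monotoneOn_of_deriv_nonneg (convex_Ioi 0)
  · exact fun τ _ => (hasDerivAt_G_t _ _ _ _ τ y).continuousAt.continuousWithinAt
  · exact fun τ _ => (hasDerivAt_G_t _ _ _ _ τ y).differentiableAt.differentiableWithinAt
  · intro τ hτ
    rw [interior_Ioi] at hτ
    have : deriv (fun τ => V τ y) τ = Gt 199800 (-3995) 996 18 τ y :=
      (hasDerivAt_G_t _ _ _ _ τ y).deriv
    rw [this]
    exact (Gt_pos (by norm_num) (by norm_num) (by norm_num) (ne_of_gt hτ) y).le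

lemma V_kappa {t : ℝ} (ht : 0 < t) (y : ℝ) : U t y < V (51 / 50 * t) y := by
  have h := G_pos (a := 199800 * (51 / 50) - 200000) (b := -3995 * (51 / 50) ^ 3 + 4000)
    (c := 996 * (51 / 50) ^ 5 - 1000) (e := 18 * (51 / 50) ^ 7 - 20)
    (by norm_num) (by norm_num) (by norm_num) ht y
  have h2 : V (51 / 50 * t) y - U t y = G (199800 * (51 / 50) - 200000)
      (-3995 * (51 / 50) ^ 3 + 4000) (996 * (51 / 50) ^ 5 - 1000) (18 * (51 / 50) ^ 7 - 20) t y := by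
    unfold U V G; ring
  linarith

lemma s_le {t s y : ℝ} (ht : 0 < t) (hs : 0 < s) (h : U t y = V s y) : s ≤ 51 / 50 * t := by
  by_contra hn
  push Not at hn
  have h1 := V_mono y (a := 51 / 50 * t) (b := s) (by simp only [Set.mem_Ioi]; positivity) hs hn.le
  have h2 := V_kappa ht y
  simp only at h1
  linarith

/-- the key polynomial inequality -/
lemma key (X W r : ℝ) (hX : 0 ≤ X) (hW : 0 ≤ W) (hWX : W ≤ X / 25) (hr : 0 ≤ r) :
    0 ≤ (200 * r ^ 3 - 5 * r ^ 2 * X + 4 * r * X ^ 2 + 2 * X ^ 3) *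
        (5976000 * r ^ 2 - 84000 * r * (X - W) + 14200 * (X - W) ^ 2) -
      (5970 * r ^ 2 + 20 * r * X + 92 * X ^ 2) *
        (200000 * r ^ 3 - 12000 * r ^ 2 * (X - W) + 5000 * r * (X - W) ^ 2 + 140 * (X - W) ^ 3) := by
  have h1 : 0 ≤ X / 25 - W := by linarith
  have h2 : 0 ≤ X ^ 2 / 625 - W ^ 2 := by nlinarith
  have q1 : 0 ≤ 18766400 * r ^ 2 - 20889216 * r * X + 5820000 * X ^ 2 := by
    nlinarith [sq_nonneg (18766400 * r - 10444608 * X), sq_nonneg X]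
  have q2 : 0 ≤ (292722864 / 25 - 5820000) * r ^ 2 - 14366464 / 25 * r * X
      + 1847152 / 125 * X ^ 2 := by
    nlinarith [sq_nonneg (r - 488 / 10000 * X), sq_nonneg X, sq_nonneg r]
  have e : (200 * r ^ 3 - 5 * r ^ 2 * X + 4 * r * X ^ 2 + 2 * X ^ 3) *
        (5976000 * r ^ 2 - 84000 * r * (X - W) + 14200 * (X - W) ^ 2) -
      (5970 * r ^ 2 + 20 * r * X + 92 * X ^ 2) *
        (200000 * r ^ 3 - 12000 * r ^ 2 * (X - W) + 5000 * r * (X - W) ^ 2 + 140 * (X - W) ^ 3) =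
      1200000 * r ^ 5
      + X * r ^ 2 * (18766400 * r ^ 2 - 20889216 * r * X + 5820000 * X ^ 2)
      + X ^ 3 * ((292722864 / 25 - 5820000) * r ^ 2 - 14366464 / 25 * r * X
          + 1847152 / 125 * X ^ 2)
      + (54840000 * r ^ 4 + 18160 * X ^ 4) * (X / 25 - W)
      + (27010000 * r ^ 3 + 2678400 * r ^ 2 * X + 411600 * r * X ^ 2 + 10240 * X ^ 3)
          * (X ^ 2 / 625 - W ^ 2)
      + (53360000 * r ^ 3 * X + 2081400 * r ^ 2 * X ^ 2 + 982800 * r * X ^ 3) * W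
      + (835800 * r ^ 2 + 2800 * r * X + 12880 * X ^ 2) * W ^ 3 := by ring
  rw [e]
  positivity

lemma hasDerivAt_LU (t y : ℝ) : HasDerivAt (fun τ => LU τ y)
    (5976000 * y ^ 4 - 84000 * y ^ 2 * t ^ 2 + 14200 * t ^ 4) t := by
  have h := (((hasDerivAt_id t).const_mul (5976000 * y ^ 4)).add
    ((hasDerivAt_pow 3 t).const_mul (-28000 * y ^ 2))).add ((hasDerivAt_pow 5 t).const_mul 2840)
  have e : (fun τ => LU τ y) = fun τ =>
      5976000 * y ^ 4 * τ + -28000 * y ^ 2 * τ ^ 3 + 2840 * τ ^ 5 := by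
    ext τ; simp only [LU, Gtt, Gyy]; ring
  rw [e]
  exact HasDerivAt.congr_deriv h (by norm_num; ring)

/-- the comparison condition -/
lemma compare {t s y : ℝ} (ht : 0 < t) (hts : t ≤ s) (h : U t y = V s y) : LU t y ≤ LV s y := by
  have hs : 0 < s := lt_of_lt_of_le ht hts
  have hk := s_le ht hs h
  set φ := G 200 (-5) 4 2 s y with hφ
  set Lφ := s * (5970 * y ^ 4 + 20 * y ^ 2 * s ^ 2 + 92 * s ^ 4) with hL
  have hφpos : 0 < φ := phi_pos hs y
  have hd : ∀ ξ, HasDerivAt (fun τ => φ * LU τ y - Lφ * U τ y)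
      (φ * (5976000 * y ^ 4 - 84000 * y ^ 2 * ξ ^ 2 + 14200 * ξ ^ 4) -
        Lφ * Gt 200000 (-4000) 1000 20 ξ y) ξ := fun ξ =>
    ((hasDerivAt_LU ξ y).const_mul φ).sub ((hasDerivAt_G_t _ _ _ _ ξ y).const_mul Lφ)
  have hm : MonotoneOn (fun τ => φ * LU τ y - Lφ * U τ y) (Set.Icc t s) := by
    apply monotoneOn_of_deriv_nonneg (convex_Icc t s)
    · exact fun τ _ => (hd τ).continuousAt.continuousWithinAt
    · exact fun τ _ => (hd τ).differentiableAt.differentiableWithinAt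
    · intro ξ hξ
      rw [interior_Icc] at hξ
      rw [(hd ξ).deriv]
      have hξ0 : 0 < ξ := lt_trans ht hξ.1
      have h1 : ξ ^ 2 ≤ s ^ 2 := by nlinarith [hξ.2]
      have h2 : s ≤ 51 / 50 * ξ := by linarith [hξ.1]
      have h3 : s ^ 2 ≤ (51 / 50 * ξ) ^ 2 := by nlinarith
      have hk := key (s ^ 2) (s ^ 2 - ξ ^ 2) (y ^ 2) (by positivity) (by linarith)
        (by nlinarith) (by positivity)
      have h4 := mul_nonneg hs.le hk
      rw [hφ, hL]
      unfold G Gt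
      refine le_of_le_of_eq h4 ?_
      ring
  have h1 := hm (a := t) (b := s) ⟨le_rfl, hts⟩ ⟨hts, le_rfl⟩ hts
  simp only at h1
  have h2 : U s y - U t y = φ := by rw [h, hφ, U_sub_V]
  have h3 : LU s y - LV s y = Lφ := by
    rw [hL]; unfold LU LV Gtt Gyy; ring
  have h4 : 0 ≤ φ * (LV s y - LU t y) := by
    have : φ * (LV s y - LU t y) = (φ * LU s y - Lφ * U s y) - (φ * LU t y - Lφ * U t y) := by
      rw [← h3, ← h2]; ring
    rw [this]; linarith
  by_contra hn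
  push Not at hn
  nlinarith

end Pool.Agent.H239Z.Hopf
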