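import Mathlib
import Pool.Agent.H239Z.HopfAlg

set_option autoImplicit false

open scoped ContDiff

namespace Pool.Agent.H239Z.Hopf

lemma second_line {E : Type} [NormedAddCommGroup E] [NormedSpace ℝ E] {f : E → ℝ}
    (hf : ContDiff ℝ 2 f) (x e : E) :
    iteratedFDeriv ℝ 2 f x ![e, e] = deriv (deriv (fun s : ℝ => f (x + s • e))) 0 := by
  have hline : ∀ s : ℝ, HasDerivAt (fun s : ℝ => x + s • e) e s := fun s => by
    simpa using ((hasDerivAt_id s).smul_const e).const_add x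
  have hd : Differentiable ℝ f := hf.differentiable (by norm_num)
  have hd2 : Differentiable ℝ (fderiv ℝ f) :=
    (hf.fderiv_right (m := 1) (by norm_num)).differentiable (by norm_num)
  have h1 : deriv (fun s : ℝ => f (x + s • e)) = fun s => fderiv ℝ f (x + s • e) e := by
    ext s
    exact ((hd (x + s • e)).hasFDerivAt.comp_hasDerivAt s (hline s)).deriv
  rw [h1, iteratedFDeriv_two_apply]
  have h2 : HasDerivAt (fun s : ℝ => fderiv ℝ f (x + s • e)) (fderiv ℝ (fderiv ℝ f) x e) 0 := by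
    have h3 := (hd2 (x + (0 : ℝ) • e)).hasFDerivAt.comp_hasDerivAt (0 : ℝ) (hline 0)
    have h4 : x + (0 : ℝ) • e = x := by simp
    rw [h4] at h3
    exact h3
  have h4 := h2.clm_apply (hasDerivAt_const (0 : ℝ) e)
  have h5 := h4.deriv
  simp only [map_zero, add_zero] at h5
  simpa using h5.symm

abbrev Sp (d : ℕ) : Type := WithLp 2 (ℝ × EuclideanSpace ℝ (Fin d))

noncomputable def lift (m : ℕ) (a b c e : ℝ) (x : Sp (m + 1)) : ℝ := G a b c e x.fst (x.snd 0)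

lemma lift_contDiff (m : ℕ) (a b c e : ℝ) (n : WithTop ℕ∞) : ContDiff ℝ n (lift m a b c e) := by
  have h1 : ContDiff ℝ n (fun x : Sp (m + 1) => x.fst) :=
    (WithLp.fstL 2 ℝ ℝ (EuclideanSpace ℝ (Fin (m + 1)))).contDiff
  have h2 : ContDiff ℝ n (fun x : Sp (m + 1) => x.snd 0) :=
    ((EuclideanSpace.proj (0 : Fin (m + 1)) : EuclideanSpace ℝ (Fin (m + 1)) →L[ℝ] ℝ).comp
      (WithLp.sndL 2 ℝ ℝ (EuclideanSpace ℝ (Fin (m + 1))))).contDiff
  unfold lift G
  exact (((contDiff_const.mul (h2.pow 6)).mul h1).add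
    ((contDiff_const.mul (h2.pow 4)).mul (h1.pow 3)) |>.add
    ((contDiff_const.mul (h2.pow 2)).mul (h1.pow 5))).add (contDiff_const.mul (h1.pow 7))

lemma dd_t (a b c e t y : ℝ) :
    deriv (deriv (fun s : ℝ => G a b c e (t + s) y)) 0 = Gtt b c e t y := by
  have h1 : deriv (fun s : ℝ => G a b c e (t + s) y) = fun s => Gt a b c e (t + s) y := by
    ext s
    exact ((hasDerivAt_G_t a b c e (t + s) y).comp_const_add t s).deriv
  rw [h1]
  have h2 := ((hasDerivAt_Gt_t a b c e (t + 0) y).comp_const_add t 0).deriv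
  simpa using h2

lemma dd_y (a b c e t y : ℝ) :
    deriv (deriv (fun s : ℝ => G a b c e t (y + s))) 0 = Gyy a b c t y := by
  have h1 : deriv (fun s : ℝ => G a b c e t (y + s)) = fun s => Gy a b c t (y + s) := by
    ext s
    exact ((hasDerivAt_G_y a b c e t (y + s)).comp_const_add y s).deriv
  rw [h1]
  have h2 := ((hasDerivAt_Gy_y a b c t (y + 0)).comp_const_add y 0).deriv
  simpa using h2

lemma laplacian_lift (m : ℕ) (a b c e : ℝ) (x : Sp (m + 1)) :
    Laplacian.laplacian (lift m a b c e) x =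
      Gtt b c e x.fst (x.snd 0) + Gyy a b c x.fst (x.snd 0) := by
  rw [InnerProductSpace.laplacian_eq_iteratedFDeriv_orthonormalBasis (lift m a b c e)
    ((OrthonormalBasis.singleton Unit ℝ).prod (EuclideanSpace.basisFun (Fin (m + 1)) ℝ))]
  simp only [second_line (lift_contDiff m a b c e 2)]
  rw [Fintype.sum_sum_type, Fin.sum_univ_succ]
  simp only [Finset.univ_unique, Finset.sum_singleton]
  have e1 : (fun s : ℝ => lift m a b c e (x + s • ((OrthonormalBasis.singleton Unit ℝ).prod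
      (EuclideanSpace.basisFun (Fin (m + 1)) ℝ)) (Sum.inl default))) =
      fun s => G a b c e (x.fst + s) (x.snd 0) := by
    ext s; simp [lift]
  have e2 : (fun s : ℝ => lift m a b c e (x + s • ((OrthonormalBasis.singleton Unit ℝ).prod
      (EuclideanSpace.basisFun (Fin (m + 1)) ℝ)) (Sum.inr 0))) =
      fun s => G a b c e x.fst (x.snd 0 + s) := by
    ext s; simp [lift]
  have e3 : ∀ i : Fin m, (fun s : ℝ => lift m a b c e (x + s • ((OrthonormalBasis.singleton Unit ℝ).prod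
      (EuclideanSpace.basisFun (Fin (m + 1)) ℝ)) (Sum.inr i.succ))) =
      fun _ => G a b c e x.fst (x.snd 0) := by
    intro i; ext s; simp [lift, (Fin.succ_ne_zero i).symm]
  rw [e1, e2, dd_t, dd_y]
  simp only [e3]
  simp

lemma iter7 (e : ℝ) : iteratedDeriv 7 (fun τ : ℝ => e * τ ^ 7) 0 = e * 5040 := by
  rw [iteratedDeriv_const_mul_field]
  simp [iteratedDeriv_pow, Nat.descFactorial]

theorem main (d : ℕ) (hd : 1 ≤ d) :
    ∃ u v : WithLp 2 (ℝ × EuclideanSpace ℝ (Fin d)) → ℝ,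
      ContDiff ℝ ∞ u ∧ ContDiff ℝ ∞ v ∧
      (∀ (t : ℝ) (y : EuclideanSpace ℝ (Fin d)), ‖y‖ < 1 → 0 < t → t < 1 →
        0 < u (WithLp.toLp 2 (t, y)) ∧ 0 < v (WithLp.toLp 2 (t, y)) ∧
        0 < deriv (fun τ : ℝ => u (WithLp.toLp 2 (τ, y))) t) ∧
      (∀ y : EuclideanSpace ℝ (Fin d), ‖y‖ < 1 → u (WithLp.toLp 2 (0, y)) = 0) ∧
      (∀ (t s : ℝ) (y : EuclideanSpace ℝ (Fin d)), ‖y‖ < 1 → 0 < t → t ≤ s → s < 1 →
        u (WithLp.toLp 2 (t, y)) = v (WithLp.toLp 2 (s, y)) →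
        Laplacian.laplacian u (WithLp.toLp 2 (t, y)) ≤
          Laplacian.laplacian v (WithLp.toLp 2 (s, y))) ∧
      deriv (fun τ : ℝ => u (WithLp.toLp 2 (τ, 0))) 0 = 0 ∧
      (u (WithLp.toLp 2 (0, 0)) = 0 ∧
        ∃ k : ℕ, iteratedDeriv k (fun τ : ℝ => u (WithLp.toLp 2 (τ, 0))) 0 ≠ 0) ∧
      (v (WithLp.toLp 2 (0, 0)) = 0 ∧
        ∃ k : ℕ, iteratedDeriv k (fun τ : ℝ => v (WithLp.toLp 2 (τ, 0))) 0 ≠ 0) ∧
      (∀ (t : ℝ) (y : EuclideanSpace ℝ (Fin d)), ‖y‖ < 1 → 0 < t → t < 1 →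
        v (WithLp.toLp 2 (t, y)) < u (WithLp.toLp 2 (t, y))) := by
  obtain ⟨m, rfl⟩ : ∃ m, d = m + 1 := ⟨d - 1, by omega⟩
  refine ⟨lift m 200000 (-4000) 1000 20, lift m 199800 (-3995) 996 18,
    lift_contDiff _ _ _ _ _ _, lift_contDiff _ _ _ _ _ _, ?_, ?_, ?_, ?_, ⟨?_, 7, ?_⟩,
    ⟨?_, 7, ?_⟩, ?_⟩
  · intro t y _ ht _
    refine ⟨U_pos ht (y 0), V_pos ht (y 0), ?_⟩
    have : deriv (fun τ : ℝ => lift m 200000 (-4000) 1000 20 (WithLp.toLp 2 (τ, y))) t =
        Gt 200000 (-4000) 1000 20 t (y 0) := (hasDerivAt_G_t _ _ _ _ t (y 0)).deriv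
    rw [this]
    exact Gt_pos (by norm_num) (by norm_num) (by norm_num) ht.ne' _
  · intro y _
    simp [lift, G]
  · intro t s y _ ht hts _ h
    rw [laplacian_lift, laplacian_lift]
    exact compare (y := y 0) ht hts h
  · have : deriv (fun τ : ℝ => lift m 200000 (-4000) 1000 20 (WithLp.toLp 2 (τ, 0))) 0 =
        Gt 200000 (-4000) 1000 20 0 0 := (hasDerivAt_G_t _ _ _ _ 0 0).deriv
    rw [this]
    simp [Gt]
  · simp [lift, G]
  · have : (fun τ : ℝ => lift m 200000 (-4000) 1000 20 (WithLp.toLp 2 (τ, 0))) =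
        fun τ : ℝ => 20 * τ ^ 7 := by
      ext τ; simp [lift, G]
    rw [this, iter7]; norm_num
  · simp [lift, G]
  · have : (fun τ : ℝ => lift m 199800 (-3995) 996 18 (WithLp.toLp 2 (τ, 0))) =
        fun τ : ℝ => 18 * τ ^ 7 := by
      ext τ; simp [lift, G]
    rw [this, iter7]; norm_num
  · intro t y _ ht _
    exact V_lt_U ht (y 0)

end Pool.Agent.H239Z.Hopf
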