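import Mathlib

set_option autoImplicit false

namespace Pool.Agent.H239Z.Split

open Equiv

/-- `f` is an occurrence of the pattern `σ` in `τ`: the entries of `τ` at the positions
`f 0 < f 1 < ⋯` form a subsequence order-isomorphic to `σ`. -/
def IsOcc {k m : ℕ} (σ : Perm (Fin k)) (τ : Perm (Fin m)) (f : Fin k → Fin m) : Prop :=
  StrictMono f ∧ ∀ a b, σ a < σ b ↔ τ (f a) < τ (f b)

/-- `τ` belongs to the class `Av(π)`: it does not contain `π`. -/
def Avoids {m n : ℕ} (τ : Perm (Fin m)) (π : Perm (Fin n)) : Prop := ¬ ∃ f, IsOcc π τ f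

/-- The class `Av(π)` is unsplittable: for all `σ`, `ρ` in the class there is `τ` in the class such
that every red-blue colouring of the entries of `τ` has a red copy of `σ` or a blue copy of `ρ`. -/
def AvUnsplittable {n : ℕ} (π : Perm (Fin n)) : Prop :=
  ∀ (k l : ℕ) (σ : Perm (Fin k)) (ρ : Perm (Fin l)), Avoids σ π → Avoids ρ π →
    ∃ (m : ℕ) (τ : Perm (Fin m)), Avoids τ π ∧ ∀ red : Fin m → Prop,
      (∃ f, IsOcc σ τ f ∧ ∀ a, red (f a)) ∨ (∃ g, IsOcc ρ τ g ∧ ∀ a, ¬ red (g a))

/-- The probability `p_n` that `Av(π)` is unsplittable, for `π` uniformly random in `S_n`. -/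
noncomputable def prob (n : ℕ) : ℝ :=
  (Nat.card {π : Perm (Fin n) // AvUnsplittable π} : ℝ) / (n.factorial : ℝ)

end Pool.Agent.H239Z.Split
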