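import Mathlib
import Pool.Agent.H239Z.SplitDefs

set_option autoImplicit false

namespace Pool.Agent.H239Z.Split

open Equiv

/-- an occurrence of `π` in a point set with coordinates `P`, `V` -/
def Occ {n : ℕ} (π : Fin n → Fin n) {Z : Type} (P V : Z → ℤ) (g : Fin n → Z) : Prop :=
  (∀ a b, a < b → P (g a) < P (g b)) ∧ ∀ a b, π a < π b → V (g a) < V (g b)

lemma sm_add {n : ℕ} (f : Fin n → ℤ) (hf : ∀ a b, a < b → f a < f b) (a : Fin n) :
    ∀ (d : ℕ) (b : Fin n), b.val = a.val + d → f a + d ≤ f b := by
  intro d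
  induction d with
  | zero => intro b hb; have : b = a := Fin.ext hb; simp [this]
  | succ d ih =>
    intro b hb
    have h1 := ih ⟨a.val + d, by omega⟩ rfl
    have h2 := hf ⟨a.val + d, by omega⟩ b (by rw [Fin.lt_def]; simp only; omega)
    push_cast
    omega

section
variable {n : ℕ} (π : Fin n → Fin n) (i : ℕ) (v w s : ℕ)

/-- rank inside the band -/
def rk (w u : ℕ) : ℕ := if u < w then u else u + 2

def GP (x : Fin n ⊕ Fin n) : ℤ :=
  match x with
  | .inl j => j.val
  | .inr j => if j.val < 2 then 2 * n + j.val else n + j.val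

def GV (x : Fin n ⊕ Fin n) : ℤ :=
  match x with
  | .inl j => if j.val = i then (v + s + 2 : ℕ) else if j.val = i + 1 then (v + w + 1 : ℕ)
      else if (π j).val < v then ((π j).val : ℕ) else ((π j).val + n : ℕ)
  | .inr j => if j.val = 0 then (v + w : ℕ) else if j.val = 1 then (v + w + 2 : ℕ)
      else (v + rk w (π j).val : ℕ)

end

/-- the basic data: an ascending pair at positions `i, i + 1` with values `v, v + 1`, first value
`w`, second value `s > w` -/
structure Dat {n : ℕ} (π : Fin n → Fin n) (i v w s : ℕ) : Prop where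
  inj : Function.Injective π
  hi : i + 1 < n
  hv : ∀ j, j.val = i ↔ (π j).val = v
  hv' : ∀ j, j.val = i + 1 ↔ (π j).val = v + 1
  hw : ∀ j, j.val = 0 ↔ (π j).val = w
  hs : ∀ j, j.val = 1 ↔ (π j).val = s
  ws : w < s
  sn : s < n

variable {n : ℕ} {π : Fin n → Fin n} {i v w s : ℕ}

lemma GP_inj : Function.Injective (GP (n := n)) := by
  rintro (a | a) (b | b) h <;> simp only [GP] at h
  · exact congrArg _ (Fin.ext (by omega))
  · exfalso; have := a.2; split_ifs at h <;> omega
  · exfalso; have := b.2; split_ifs at h <;> omega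
  · have := a.2; have := b.2
    exact congrArg _ (Fin.ext (by split_ifs at h <;> omega))

lemma Dat.val_inj (D : Dat π i v w s) {a b : Fin n} (h : (π a).val = (π b).val) : a = b :=
  D.inj (Fin.ext h)

lemma Dat.GV_inj (D : Dat π i v w s) : Function.Injective (GV π i v w s) := by
  have := D.ws
  have := D.sn
  rintro (a | a) (b | b) h <;> simp only [GV, rk] at h <;>
    have := D.hv a <;> have := D.hv' a <;> have := D.hw a <;> have := D.hs a <;>
    have := D.hv b <;> have := D.hv' b <;> have := D.hw b <;> have := D.hs b <;>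
    have := (π a).2 <;> have := (π b).2
  · by_cases h2 : (π a).val = (π b).val
    · rw [D.val_inj h2]
    · exfalso; split_ifs at h <;> omega
  · exfalso; split_ifs at h <;> omega
  · exfalso; split_ifs at h <;> omega
  · by_cases h2 : (π a).val = (π b).val
    · rw [D.val_inj h2]
    · exfalso; split_ifs at h <;> omega

section force
variable {Z : Type} {P V : Z → ℤ} {f : Fin n ⊕ Fin n → Z}

/-- `f` embeds the gadget -/
def Emb (π : Fin n → Fin n) (i v w s : ℕ) (P V : Z → ℤ) (f : Fin n ⊕ Fin n → Z) : Prop :=
  (∀ a b, GP a < GP b → P (f a) < P (f b)) ∧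
    ∀ a b, GV π i v w s a < GV π i v w s b → V (f a) < V (f b)

lemma Dat.rect (D : Dat π i v w s) (hav : ¬ ∃ g, Occ π P V g) (hf : Emb π i v w s P V f)
    (I I' c a : Fin n) (hI : I.val = i) (hI' : I'.val = i + 1) (hc : (π c).val + 1 = w)
    (ha : a.val = 1) (z1 z2 : Z) (h1 : P z1 < P z2) (h2 : V z1 < V z2)
    (h3 : P (f (.inl I)) ≤ P z1) (h4 : P z2 ≤ P (f (.inl I')))
    (h5 : V (f (.inr c)) ≤ V z1) (h6 : V z2 ≤ V (f (.inr a))) : False := by
  apply hav
  have := D.ws
  have := D.sn
  refine ⟨fun j => if j.val = i then z1 else if j.val = i + 1 then z2 else f (.inl j), ?_, ?_⟩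
  · intro x y hxy
    rw [Fin.lt_def] at hxy
    have a1 := hf.1 (.inl x) (.inl I)
    have a2 := hf.1 (.inl I') (.inl y)
    have a3 := hf.1 (.inl x) (.inl y)
    simp only [GP] at a1 a2 a3
    simp only
    split_ifs <;> omega
  · intro x y hxy
    rw [Fin.lt_def] at hxy
    have a1 := hf.2 (.inl x) (.inr c)
    have a2 := hf.2 (.inr a) (.inl y)
    have a3 := hf.2 (.inl x) (.inl y)
    have := D.hv x; have := D.hv' x; have := D.hv y; have := D.hv' y
    have := D.hw c; have := D.hs c
    simp only [GV, rk] at a1 a2 a3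
    simp only
    split_ifs at a1 a2 a3 ⊢ <;> omega

lemma Dat.left (D : Dat π i v w s) (hav : ¬ ∃ g, Occ π P V g) (hf : Emb π i v w s P V f)
    (I c a : Fin n) (hI : I.val = i) (hc : (π c).val + 1 = w) (ha : a.val = 1) (z : Z)
    (h3 : P z < P (f (.inl I))) (h5 : V (f (.inr c)) < V z) (h6 : V z < V (f (.inr a))) :
    False := by
  apply hav
  have := D.ws
  have := D.sn
  have := D.hi
  refine ⟨fun j => if j.val = 0 then z else if j.val = 1 then f (.inl I) else f (.inr j), ?_, ?_⟩
  · intro x y hxy
    rw [Fin.lt_def] at hxy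
    have a2 := hf.1 (.inl I) (.inr y)
    have a3 := hf.1 (.inr x) (.inr y)
    simp only [GP] at a2 a3
    simp only
    split_ifs at a2 a3 ⊢ <;> omega
  · intro x y hxy
    rw [Fin.lt_def] at hxy
    have a1 := hf.2 (.inr x) (.inr c)
    have a2 := hf.2 (.inr a) (.inr y)
    have a3 := hf.2 (.inr x) (.inr y)
    have a4 := hf.2 (.inr x) (.inl I)
    have a5 := hf.2 (.inl I) (.inr y)
    have a6 := hf.2 (.inr a) (.inl I)
    have a7 : (π x).val = (π c).val → V (f (.inr x)) = V (f (.inr c)) := fun h => by
      rw [D.val_inj h]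
    have := D.hw x; have := D.hs x; have := D.hw y; have := D.hs y
    have := D.hw c; have := D.hs c
    simp only [GV, rk] at a1 a2 a3 a4 a5 a6
    simp only
    split_ifs at a1 a2 a3 a4 a5 a6 ⊢ <;> omega

lemma Dat.win (D : Dat π i v w s) (hav : ¬ ∃ g, Occ π P V g) (hf : Emb π i v w s P V f)
    (hP : Function.Injective P)
    (I c a : Fin n) (hI : I.val = i) (hc : (π c).val + 1 = w) (ha : a.val = 1) (z : Z)
    (h5 : V (f (.inr c)) < V z) (h6 : V z < V (f (.inr a))) : P (f (.inl I)) < P z := by
  rcases lt_trichotomy (P z) (P (f (.inl I))) with h | h | h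
  · exact (D.left hav hf I c a hI hc ha z h h5 h6).elim
  · exfalso
    have := D.ws
    rw [hP h] at h6
    have a6 := hf.2 (.inr a) (.inl I)
    simp only [GV] at a6
    split_ifs at a6 <;> omega
  · exact h

end force

/-- the typicality conditions under which the gadget avoids `π` -/
structure Typ (π : Fin n → Fin n) (i v w : ℕ) : Prop where
  hn : 16 ≤ n
  ha : ∀ x y z : Fin n, x.val + 2 = n → z.val + 1 = n → n ≤ y.val + 8 → y.val + 6 ≤ n →
    π x < π y ∧ π y < π z
  hb : ∀ x y z : Fin n, x.val + 5 = n → z.val + 4 = n → y.val ≤ 2 → π x < π y ∧ π y < π z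
  hd : ∀ z : Fin n, z.val + 1 = n → w + 3 ≤ (π z).val
  he : ∃ q q' : Fin n, q'.val = q.val + 1 ∧ q.val ≠ i ∧ q.val ≠ i + 1 ∧ q'.val ≠ i ∧
    q'.val ≠ i + 1 ∧ ∀ z : Fin n, z.val + 1 = n →
      (π z < π q ∧ (π q).val < v ∧ (π q').val < v) ∨
      (π q < π z ∧ v + 1 < (π q).val ∧ v + 1 < (π q').val)

lemma band_iff (D : Dat π i v w s) (x : Fin n ⊕ Fin n) :
    ((v : ℤ) ≤ GV π i v w s x ∧ GV π i v w s x ≤ v + n + 1) ↔
      (GP x = i ∨ GP x = i + 1 ∨ (n : ℤ) ≤ GP x) := by
  have := D.ws
  have := D.sn
  rcases x with j | j <;> simp only [GV, GP, rk] <;> have := D.hv j <;> have := D.hv' j <;>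
    have := (π j).2 <;> have := j.2 <;> split_ifs <;> omega

theorem Dat.avoid (D : Dat π i v w s) (T : Typ π i v w) (hsurj : Function.Surjective π) :
    ¬ ∃ g, Occ π GP (GV π i v w s) g := by
  rintro ⟨g, hP, hV⟩
  have hn := T.hn
  have hi := D.hi
  have hws := D.ws
  have hsn := D.sn
  have band := fun t => band_iff D (g t)
  have hP0 : ∀ t, 0 ≤ GP (g t) := by
    intro t
    rcases g t with j | j <;> simp only [GP] <;> (try split_ifs) <;> omega
  let e : (k : ℕ) → k < n → Fin n := fun k h => ⟨k, h⟩
  have lt : ∀ (a b : ℕ) (ha : a < n) (hb : b < n), a < b → GP (g ⟨a, ha⟩) < GP (g ⟨b, hb⟩) :=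
    fun a b ha hb h => hP _ _ h
  by_cases hA : (n : ℤ) ≤ GP (g ⟨n - 2, by omega⟩)
  · -- the last two entries lie in the block
    have b1 := (band ⟨n - 2, by omega⟩).2 (by omega)
    have l1 := lt (n - 2) (n - 1) (by omega) (by omega) (by omega)
    have b2 := (band ⟨n - 1, by omega⟩).2 (by omega)
    have m1 : ∀ y : Fin n, n ≤ y.val + 8 → y.val + 6 ≤ n →
        (GP (g y) = i ∨ GP (g y) = i + 1 ∨ (n : ℤ) ≤ GP (g y)) := by
      intro y h1 h2
      obtain ⟨c1, c2⟩ := T.ha ⟨n - 2, by omega⟩ y ⟨n - 1, by omega⟩ (by simp only; omega)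
        (by simp only; omega) h1 h2
      have := hV _ _ c1
      have := hV _ _ c2
      exact (band y).1 (by omega)
    have m2 := m1 ⟨n - 8, by omega⟩ (by simp only; omega) (by simp only; omega)
    have m3 := m1 ⟨n - 7, by omega⟩ (by simp only; omega) (by simp only; omega)
    have m4 := m1 ⟨n - 6, by omega⟩ (by simp only; omega) (by simp only; omega)
    have l2 := lt (n - 8) (n - 7) (by omega) (by omega) (by omega)
    have l3 := lt (n - 7) (n - 6) (by omega) (by omega) (by omega)
    have l4 := lt (n - 6) (n - 5) (by omega) (by omega) (by omega)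
    have l5 := lt (n - 5) (n - 4) (by omega) (by omega) (by omega)
    have b3 := (band ⟨n - 5, by omega⟩).2 (by omega)
    have b4 := (band ⟨n - 4, by omega⟩).2 (by omega)
    have m5 : ∀ y : Fin n, y.val ≤ 2 →
        (GP (g y) = i ∨ GP (g y) = i + 1 ∨ (n : ℤ) ≤ GP (g y)) := by
      intro y h1
      obtain ⟨c1, c2⟩ := T.hb ⟨n - 5, by omega⟩ y ⟨n - 4, by omega⟩ (by simp only; omega)
        (by simp only; omega) h1
      have := hV _ _ c1
      have := hV _ _ c2
      exact (band y).1 (by omega)
    have m6 := m5 ⟨0, by omega⟩ (by simp)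
    have m7 := m5 ⟨1, by omega⟩ (by simp)
    have m8 := m5 ⟨2, by omega⟩ (by simp)
    have l6 := lt 0 1 (by omega) (by omega) (by omega)
    have l7 := lt 1 2 (by omega) (by omega) (by omega)
    have all : ∀ y : Fin n, (v : ℤ) ≤ GV π i v w s (g y) ∧ GV π i v w s (g y) ≤ v + n + 1 := by
      intro y
      apply (band y).2
      by_cases hy : y.val ≤ 2
      · exact m5 y hy
      · have := lt 2 y.val (by omega) y.2 (by omega)
        simp only [Fin.eta] at this
        omega
    -- the inverse of `π`
    obtain ⟨ρ, hρ⟩ := hsurj.hasRightInverse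
    have hρ' : ∀ t, ρ (π t) = t := fun t => D.inj (hρ _)
    have sm : ∀ a b, a < b → GV π i v w s (g (ρ a)) < GV π i v w s (g (ρ b)) := by
      intro a b hab
      apply hV
      rwa [hρ a, hρ b]
    have low : ∀ t, (v : ℤ) + (π t).val ≤ GV π i v w s (g t) := by
      intro t
      have h1 := sm_add _ sm ⟨0, by omega⟩ (π t).val (π t) (by simp)
      rw [hρ'] at h1
      have := (all (ρ ⟨0, by omega⟩)).1
      omega
    by_cases hB : 2 * (n : ℤ) ≤ GP (g ⟨n - 1, by omega⟩)
    · have h1 := low ⟨n - 1, by omega⟩
      have h2 := T.hd ⟨n - 1, by omega⟩ (by simp only; omega)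
      revert hB h1
      rcases g ⟨n - 1, by omega⟩ with j | j <;> simp only [GP, GV] <;> have := j.2 <;>
        (try split_ifs) <;> omega
    · -- only points of the band other than the two extra ones are used
      have hlt : ∀ t, GP (g t) < 2 * n := by
        intro t
        by_cases ht : t.val = n - 1
        · have : t = ⟨n - 1, by omega⟩ := Fin.ext ht
          rw [this]; omega
        · have := lt t.val (n - 1) t.2 (by omega) (by have := t.2; omega)
          simp only [Fin.eta] at this
          omega
      let F : Fin n ⊕ Fin n → ℤ := fun x =>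
        if GV π i v w s x ≤ v + w then GV π i v w s x - v else
          if GV π i v w s x = v + w + 1 then w else GV π i v w s x - v - 2
      have hne : ∀ t, GV π i v w s (g t) ≠ v + w ∧ GV π i v w s (g t) ≠ v + w + 2 := by
        intro t
        have h1 := hlt t
        have h2 := all t
        revert h1 h2
        rcases g t with j | j <;> simp only [GP, GV, rk] <;> have := j.2 <;>
          have := D.hw j <;> have := D.hv j <;> have := D.hv' j <;> split_ifs <;> omega
      have sm2 : ∀ a b, a < b → F (g (ρ a)) < F (g (ρ b)) := by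
        intro a b hab
        have := sm a b hab
        have := hne (ρ a)
        have := hne (ρ b)
        simp only [F]
        split_ifs <;> omega
      have hF : ∀ t, 0 ≤ F (g t) ∧ F (g t) ≤ n - 1 := by
        intro t
        have := hne t
        have := all t
        simp only [F]
        split_ifs <;> omega
      have eq : ∀ t, F (g t) = (π t).val := by
        intro t
        have h1 := sm_add _ sm2 ⟨0, by omega⟩ (π t).val (π t) (by simp)
        have h2 := sm_add _ sm2 (π t) (n - 1 - (π t).val) ⟨n - 1, by omega⟩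
          (by have := (π t).2; simp only; omega)
        rw [hρ'] at h1 h2
        have := hF (ρ ⟨0, by omega⟩)
        have := hF (ρ ⟨n - 1, by omega⟩)
        have := (π t).2
        omega
      have e0 := eq ⟨0, by omega⟩
      have e1 := eq ⟨1, by omega⟩
      rw [(D.hw ⟨0, by omega⟩).1 rfl] at e0
      rw [(D.hs ⟨1, by omega⟩).1 rfl] at e1
      have p0 : GP (g ⟨0, by omega⟩) = i + 1 := by
        have h1 := hlt ⟨0, by omega⟩
        have h2 := all ⟨0, by omega⟩
        revert e0 h1 h2
        rcases g ⟨0, by omega⟩ with j | j <;> simp only [F, GP, GV, rk] <;> have := j.2 <;>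
          have := D.hw j <;> have := D.hv j <;> have := D.hv' j <;> split_ifs <;> omega
      have p1 : GP (g ⟨1, by omega⟩) = i := by
        have h1 := hlt ⟨1, by omega⟩
        have h2 := all ⟨1, by omega⟩
        revert e1 h1 h2
        rcases g ⟨1, by omega⟩ with j | j <;> simp only [F, GP, GV, rk] <;> have := j.2 <;>
          have := D.hw j <;> have := D.hs j <;> have := D.hv j <;> have := D.hv' j <;>
          split_ifs <;> omega
      omega
  · -- at most the last entry lies in the block
    have lo : ∀ t, (t.val : ℤ) ≤ GP (g t) := by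
      intro t
      have h1 := sm_add _ hP ⟨0, by omega⟩ t.val t (by simp)
      have := hP0 ⟨0, by omega⟩
      omega
    by_cases hB : (n : ℤ) ≤ GP (g ⟨n - 1, by omega⟩)
    · obtain ⟨q, q', hq, n1, n2, n3, n4, hz⟩ := T.he
      have hq' := q'.2
      have h1 := lo q
      have h2 := sm_add _ hP q (n - 2 - q.val) ⟨n - 2, by omega⟩ (by simp only; omega)
      have b2 := (band ⟨n - 1, by omega⟩).2 (by omega)
      have hg : g q = .inl q ∨ g q = .inl q' := by
        have h3 : GP (g q) ≤ q.val + 1 := by omega
        revert h1 h3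
        rcases g q with j | j <;> simp only [GP]
        · intro h1 h3
          by_cases h : j.val = q.val
          · left; rw [Fin.ext h]
          · right; rw [show j = q' from Fin.ext (by omega)]
        · split_ifs <;> omega
      rcases hz ⟨n - 1, by omega⟩ (by simp only; omega) with ⟨c1, c2, c3⟩ | ⟨c1, c2, c3⟩
      · have := hV _ _ c1
        rcases hg with hg | hg <;> rw [hg] at this <;> simp only [GV] at this b2 <;>
          split_ifs at this <;> omega
      · have := hV _ _ c1
        rcases hg with hg | hg <;> rw [hg] at this <;> simp only [GV] at this b2 <;>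
          split_ifs at this <;> omega
    · have up : ∀ t, GP (g t) ≤ t.val := by
        intro t
        have h2 := sm_add _ hP t (n - 1 - t.val) ⟨n - 1, by omega⟩
          (by have := t.2; simp only; omega)
        have := t.2
        omega
      have eq : ∀ t, g t = .inl t := by
        intro t
        apply GP_inj
        exact le_antisymm (up t) (lo t)
      have h1 := hV ⟨i, by omega⟩ ⟨i + 1, hi⟩ (by
        rw [Fin.lt_def, (D.hv _).1 rfl, (D.hv' _).1 rfl]; omega)
      rw [eq, eq] at h1
      simp only [GV] at h1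
      split_ifs at h1 <;> omega

end Pool.Agent.H239Z.Split
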