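import Mathlib
import Pool.Agent.H239Z.SplitGadget

set_option autoImplicit false

namespace Pool.Agent.H239Z.Split

open Equiv Finset

section rank
variable {ι : Type} [Fintype ι]

noncomputable def rank (P : ι → ℤ) (a : ι) : Fin (Fintype.card ι) :=
  ⟨(univ.filter fun b => P b < P a).card, by
    rw [← card_univ]
    apply card_lt_card
    refine ⟨filter_subset _ _, fun h => ?_⟩
    have := h (mem_univ a)
    simp at this⟩

lemma rank_lt (P : ι → ℤ) {a b : ι} (h : P a < P b) : rank P a < rank P b := by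
  rw [Fin.lt_def]
  apply card_lt_card
  refine ⟨fun x hx => ?_, fun h' => ?_⟩
  · simp only [mem_filter, mem_univ, true_and] at hx ⊢
    omega
  · have := h' (show a ∈ univ.filter fun x => P x < P b by simpa using h)
    simp at this

lemma rank_lt_iff {P : ι → ℤ} (hP : Function.Injective P) {a b : ι} :
    rank P a < rank P b ↔ P a < P b := by
  refine ⟨fun h => ?_, rank_lt P⟩
  rcases lt_trichotomy (P a) (P b) with h1 | h1 | h1
  · exact h1
  · rw [hP h1] at h; exact absurd h (lt_irrefl _)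
  · exact absurd (rank_lt P h1) (lt_asymm h)

noncomputable def rankE {P : ι → ℤ} (hP : Function.Injective P) : ι ≃ Fin (Fintype.card ι) :=
  Equiv.ofBijective (rank P) ((Fintype.bijective_iff_injective_and_card _).2 ⟨fun a b h => by
    rcases lt_trichotomy (P a) (P b) with h1 | h1 | h1
    · exact absurd (rank_lt P h1) (by rw [h]; exact lt_irrefl _)
    · exact hP h1
    · exact absurd (rank_lt P h1) (by rw [h]; exact lt_irrefl _), by simp⟩)

lemma exists_perm {P V : ι → ℤ} (hP : Function.Injective P) (hV : Function.Injective V) :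
    ∃ (k : ℕ) (σ : Perm (Fin k)) (e : ι ≃ Fin k), (∀ a b, e a < e b ↔ P a < P b) ∧
      ∀ a b, σ (e a) < σ (e b) ↔ V a < V b := by
  refine ⟨_, (rankE hP).symm.trans (rankE hV), rankE hP, fun a b => rank_lt_iff hP, fun a b => ?_⟩
  simp only [Equiv.trans_apply, Equiv.symm_apply_apply]
  exact rank_lt_iff hV

end rank

variable {n : ℕ}

lemma avoids_of {ι : Type} {P V : ι → ℤ} {k : ℕ} {σ : Perm (Fin k)} {e : ι ≃ Fin k}
    (h1 : ∀ a b, e a < e b ↔ P a < P b) (h2 : ∀ a b, σ (e a) < σ (e b) ↔ V a < V b)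
    {π : Perm (Fin n)} (h : ¬ ∃ g, Occ π P V g) : Avoids σ π := by
  rintro ⟨f, f1, f2⟩
  refine h ⟨fun a => e.symm (f a), fun a b hab => ?_, fun a b hab => ?_⟩
  · rw [← h1]; simpa using f1 hab
  · rw [← h2]; simpa using (f2 a b).1 hab

lemma not_occ_of_avoids {m : ℕ} {τ : Perm (Fin m)} {π : Perm (Fin n)} (h : Avoids τ π) :
    ¬ ∃ g, Occ π (fun z : Fin m => (z.val : ℤ)) (fun z => ((τ z).val : ℤ)) g := by
  rintro ⟨g, g1, g2⟩
  refine h ⟨g, fun a b hab => ?_, fun a b => ⟨fun hab => ?_, fun hab => ?_⟩⟩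
  · have := g1 a b hab
    rw [Fin.lt_def]; simp only at this; omega
  · have := g2 a b hab
    rw [Fin.lt_def]; simp only at this; omega
  · rcases lt_trichotomy (π a) (π b) with h1 | h1 | h1
    · exact h1
    · rw [π.injective h1] at hab; exact absurd hab (lt_irrefl _)
    · have := g2 b a h1
      rw [Fin.lt_def] at hab; simp only at this; omega

/-- rotation by a half turn -/
def rc (π : Fin n → Fin n) : Fin n → Fin n := fun t => (π t.rev).rev

lemma occ_rc {π : Fin n → Fin n} {Z : Type} {P V : Z → ℤ} {g : Fin n → Z}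
    (h : Occ (rc π) (fun z => -P z) (fun z => -V z) g) : Occ π P V (fun t => g t.rev) := by
  refine ⟨fun a b hab => ?_, fun a b hab => ?_⟩
  · have := h.1 b.rev a.rev (Fin.rev_lt_rev.2 hab)
    simp only at this ⊢; omega
  · have := h.2 b.rev a.rev (by simpa [rc] using hab)
    simp only at this ⊢; omega

lemma occ_rc' {π : Fin n → Fin n} {Z : Type} {P V : Z → ℤ} {g : Fin n → Z}
    (h : Occ π (fun z => -P z) (fun z => -V z) g) : Occ (rc π) P V (fun t => g t.rev) := by
  refine ⟨fun a b hab => ?_, fun a b hab => ?_⟩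
  · have := h.1 b.rev a.rev (Fin.rev_lt_rev.2 hab)
    simp only at this ⊢; omega
  · have := h.2 b.rev a.rev (by simpa [rc] using hab)
    simp only at this ⊢; omega

section vals
variable {π : Fin n → Fin n} {i v w s : ℕ} {j : Fin n}

lemma GP_inl : GP (.inl j) = j.val := rfl
lemma GP_blk (h : 2 ≤ j.val) : GP (.inr j) = n + j.val := by
  simp only [GP]; rw [if_neg (by omega)]
lemma GP_ext (h : j.val < 2) : GP (.inr j) = 2 * n + j.val := by
  simp only [GP]; rw [if_pos h]
lemma GV_o (h : j.val = 0) : GV π i v w s (.inr j) = v + w := by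
  simp [GV, h]
lemma GV_a (h : j.val = 1) : GV π i v w s (.inr j) = v + w + 2 := by
  simp [GV, h]
lemma GV_J (h : j.val = i + 1) : GV π i v w s (.inl j) = v + w + 1 := by
  simp [GV, h]
lemma GV_c (h : 2 ≤ j.val) (h' : (π j).val + 1 = w) : GV π i v w s (.inr j) = v + w - 1 := by
  simp only [GV, rk]
  rw [if_neg (by omega), if_neg (by omega), if_pos (by omega)]
  omega

end vals

theorem not_unsplittable (π : Perm (Fin n)) {i v w s i' v' w' s' : ℕ}
    (D : Dat π i v w s) (T : Typ π i v w) (D' : Dat (rc π) i' v' w' s') (T' : Typ (rc π) i' v' w')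
    (hw : 0 < w) (hw' : 0 < w') : ¬ AvUnsplittable π := by
  intro hU
  have hn := T.hn
  have hs' : Function.Surjective (rc π) := Finite.surjective_of_injective D'.inj
  obtain ⟨k, β, e, e1, e2⟩ := exists_perm (GP_inj (n := n)) D.GV_inj
  obtain ⟨k', α, e', e1', e2'⟩ := exists_perm (P := fun x => -GP (n := n) x)
    (V := fun x => -GV (rc π) i' v' w' s' x)
    (fun a b h => GP_inj (neg_injective h)) (fun a b h => D'.GV_inj (neg_injective h))
  have hβ : Avoids β π := avoids_of e1 e2 (D.avoid T π.surjective)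
  have hα : Avoids α π := avoids_of e1' e2' (by
    rintro ⟨g, hg⟩
    exact D'.avoid T' hs' ⟨_, occ_rc' hg⟩)
  obtain ⟨m, τ, hτ, hc⟩ := hU k k' β α hβ hα
  let I : Fin n := ⟨i, by have := D.hi; omega⟩
  let J : Fin n := ⟨i + 1, D.hi⟩
  let I' : Fin n := ⟨i', by have := D'.hi; omega⟩
  let J' : Fin n := ⟨i' + 1, D'.hi⟩
  let o : Fin n := ⟨0, by omega⟩
  let a : Fin n := ⟨1, by omega⟩
  rcases hc (fun z => ∃ f', IsOcc α τ f' ∧ f' (e' (.inl J')) = z) with ⟨f, hf, hr⟩ | ⟨g, hg, hr⟩
  swap
  · exact hr _ ⟨g, hg, rfl⟩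
  obtain ⟨f', hf', hxy⟩ := hr (e (.inl J))
  set P : Fin m → ℤ := fun z => (z.val : ℤ) with hP
  set V : Fin m → ℤ := fun z => ((τ z).val : ℤ) with hV
  have Pinj : Function.Injective P := fun x y h => Fin.ext (by simpa [hP] using h)
  have Vinj : Function.Injective V := fun x y h =>
    τ.injective (Fin.ext (by simpa [hV] using h))
  have av : ¬ ∃ g, Occ π P V g := not_occ_of_avoids hτ
  have av' : ¬ ∃ g, Occ (rc π) (fun z => -P z) (fun z => -V z) g := by
    rintro ⟨g, hg⟩
    exact av ⟨_, occ_rc hg⟩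
  have E : Emb π i v w s P V (fun x => f (e x)) := by
    refine ⟨fun x y h => ?_, fun x y h => ?_⟩
    · have := hf.1 ((e1 x y).2 h)
      simpa [hP] using this
    · have := (hf.2 _ _).1 ((e2 x y).2 h)
      simpa [hV] using this
  have E' : Emb (rc π) i' v' w' s' (fun z => -P z) (fun z => -V z) (fun x => f' (e' x)) := by
    refine ⟨fun x y h => ?_, fun x y h => ?_⟩
    · have := hf'.1 ((e1' y x).2 (by omega))
      simpa [hP] using this
    · have := (hf'.2 _ _).1 ((e2' y x).2 (by omega))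
      simpa [hV] using this
  obtain ⟨c, hc⟩ := π.surjective ⟨w - 1, by have := D.ws; have := D.sn; omega⟩
  have hc1 : (π c).val + 1 = w := by rw [hc]; simp only; omega
  obtain ⟨c', hc'⟩ := hs' ⟨w' - 1, by have := D'.ws; have := D'.sn; omega⟩
  have hc1' : (rc π c').val + 1 = w' := by rw [hc']; simp only; omega
  have hc2 : 2 ≤ c.val := by
    have c0 := D.hw c
    have c1 := D.hs c
    have := D.ws
    omega
  have hc2' : 2 ≤ c'.val := by
    have c0 := D'.hw c'
    have c1 := D'.hs c'
    have := D'.ws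
    omega
  have hcn := c.2
  have hJn := J.2
  have hJn' := J'.2
  -- relations inside the first gadget
  have r1 : P (f (e (.inl J))) < P (f (e (.inr c))) :=
    E.1 (.inl J) (.inr c) (by rw [GP_inl, GP_blk hc2]; omega)
  have r2 : P (f (e (.inr c))) < P (f (e (.inr o))) :=
    E.1 (.inr c) (.inr o) (by rw [GP_blk hc2, GP_ext (by simp [o])]; omega)
  have r3 : V (f (e (.inr c))) < V (f (e (.inr o))) :=
    E.2 (.inr c) (.inr o) (by rw [GV_c hc2 hc1, GV_o rfl]; omega)
  have r4 : V (f (e (.inr o))) < V (f (e (.inl J))) :=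
    E.2 (.inr o) (.inl J) (by rw [GV_o rfl, GV_J rfl]; omega)
  have r5 : V (f (e (.inl J))) < V (f (e (.inr a))) :=
    E.2 (.inl J) (.inr a) (by rw [GV_a rfl, GV_J rfl]; omega)
  -- relations inside the second gadget
  have s1 : -P (f' (e' (.inl J'))) < -P (f' (e' (.inr a))) :=
    E'.1 (.inl J') (.inr a) (by rw [GP_inl, GP_ext (by simp [a])]; omega)
  have s2 : -V (f' (e' (.inl J'))) < -V (f' (e' (.inr a))) :=
    E'.2 (.inl J') (.inr a) (by rw [GV_a rfl, GV_J rfl]; omega)
  have s3 : -V (f' (e' (.inr c'))) < -V (f' (e' (.inl J'))) :=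
    E'.2 (.inr c') (.inl J') (by rw [GV_c hc2' hc1', GV_J rfl]; omega)
  have hxy' : P (f' (e' (.inl J'))) = P (f (e (.inl J))) := by rw [hxy]
  rw [hxy] at s1 s2 s3
  have key : V (f' (e' (.inr a))) < V (f (e (.inr c))) := by
    rcases lt_trichotomy (V (f' (e' (.inr a)))) (V (f (e (.inr c)))) with h | h | h
    · exact h
    · rw [Vinj h] at s1; linarith
    · exfalso
      have h1 := D.win av E Pinj I c a rfl hc1 rfl (f' (e' (.inr a))) h
        (show V (f' (e' (.inr a))) < V (f (e (.inr a))) by linarith)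
      exact D.rect av E I J c a rfl rfl hc1 rfl (f' (e' (.inr a))) (f (e (.inl J)))
        (by linarith) (by linarith) h1.le le_rfl h.le r5.le
  have h1 := D'.win av' E' (fun x y h => Pinj (neg_injective h)) I' c' a rfl hc1' rfl
    (f (e (.inr o))) (show -V (f' (e' (.inr c'))) < -V (f (e (.inr o))) by linarith)
    (show -V (f (e (.inr o))) < -V (f' (e' (.inr a))) by linarith)
  exact D'.rect av' E' I' J' c' a rfl rfl hc1' rfl (f (e (.inr o))) (f (e (.inr c)))
    (show -P (f (e (.inr o))) < -P (f (e (.inr c))) by linarith)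
    (show -V (f (e (.inr o))) < -V (f (e (.inr c))) by linarith) h1.le
    (show -P (f (e (.inr c))) ≤ -P (f' (e' (.inl J'))) by linarith)
    (show -V (f' (e' (.inr c'))) ≤ -V (f (e (.inr o))) by linarith)
    (show -V (f (e (.inr c))) ≤ -V (f' (e' (.inr a))) by linarith)

/-- the values of a permutation, as a function on natural numbers -/
def xv (π : Perm (Fin n)) (k : ℕ) : ℕ := if hk : k < n then (π ⟨k, hk⟩).val else 0

lemma xv_val (π : Perm (Fin n)) (a : Fin n) : (π a).val = xv π a.val := by simp [xv, a.2]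

lemma xv_lt (π : Perm (Fin n)) (k : ℕ) (hk : k < n) : xv π k < n := by
  have := xv_val π ⟨k, hk⟩
  rw [← this]; exact (π _).2

lemma xv_inj (π : Perm (Fin n)) (k l : ℕ) (hk : k < n) (hl : l < n) (hkl : xv π k = xv π l) :
    k = l := by
  have h1 := xv_val π ⟨k, hk⟩
  have h2 := xv_val π ⟨l, hl⟩
  have := π.injective (Fin.ext (show (π ⟨k, hk⟩).val = (π ⟨l, hl⟩).val by
    rw [h1, h2]; exact hkl))
  exact congrArg Fin.val this

/-- the order pattern of the first eight, the last eight and the `i`-th value -/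
structure Chain (n : ℕ) (x : ℕ → ℕ) (i : ℕ) : Prop where
  c1 : x 3 < x (n - 5)
  c2 : x (n - 5) < x (n - 3)
  c3 : x (n - 3) < x (n - 2)
  c4 : x (n - 2) < x (n - 8)
  c5 : x (n - 8) < x (n - 7)
  c6 : x (n - 7) < x (n - 6)
  c7 : x (n - 6) < x 0
  c8 : x 0 < x 5
  c9 : x 5 < x 6
  c10 : x 6 < x 7
  c11 : x 7 < x 1
  c12 : x 1 < x 2
  c13 : x 2 < x (n - 1)
  c14 : x (n - 1) < x (n - 4)
  c15 : x (n - 4) < x 4
  c16 : x 4 < x i

theorem split_of_chain {π : Perm (Fin n)} {i : ℕ} (hi : 8 ≤ i) (hi' : i + 10 ≤ n)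
    (pr : xv π (i + 1) = xv π i + 1) (h : Chain n (xv π) i) : ¬ AvUnsplittable π := by
  have hn : 16 ≤ n := by omega
  have hx := xv_val π
  have xlt := xv_lt π
  have xinj := xv_inj π
  have hrc : ∀ a : Fin n, (rc π a).val = n - 1 - xv π (n - 1 - a.val) := fun a => by
    simp only [rc, Fin.val_rev, hx]
    have : n - (a.val + 1) = n - 1 - a.val := by omega
    rw [this]; omega
  generalize xv π = x at hx xlt xinj hrc pr h
  obtain ⟨c1, c2, c3, c4, c5, c6, c7, c8, c9, c10, c11, c12, c13, c14, c15, c16⟩ := h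
  have t1 := xlt (i + 1) (by omega)
  have rinj : Function.Injective (rc π) := fun a b hab =>
    Fin.rev_injective (π.injective (Fin.rev_injective hab))
  refine not_unsplittable π (i := i) (v := x i) (w := x 0) (s := x 1) (i' := n - 2 - i)
    (v' := n - 2 - x i) (w' := n - 1 - x (n - 1)) (s' := n - 1 - x (n - 2))
    ⟨π.injective, by omega, ?_, ?_, ?_, ?_, by omega, by omega⟩ ⟨hn, ?_, ?_, ?_, ?_⟩
    ⟨rinj, by omega, ?_, ?_, ?_, ?_, by omega, by omega⟩ ⟨hn, ?_, ?_, ?_, ?_⟩
    (by omega) (by omega)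
  · intro j; rw [hx]
    exact ⟨fun e => by rw [e], xinj _ _ j.2 (by omega)⟩
  · intro j; rw [hx, ← pr]
    exact ⟨fun e => by rw [e], xinj _ _ j.2 (by omega)⟩
  · intro j; rw [hx]
    exact ⟨fun e => by rw [e], xinj _ _ j.2 (by omega)⟩
  · intro j; rw [hx]
    exact ⟨fun e => by rw [e], xinj _ _ j.2 (by omega)⟩
  · intro a b c ha hc hb1 hb2
    rw [Fin.lt_def, Fin.lt_def, hx, hx, hx, show a.val = n - 2 by omega,
      show c.val = n - 1 by omega]
    have : b.val = n - 8 ∨ b.val = n - 7 ∨ b.val = n - 6 := by omega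
    rcases this with e | e | e <;> rw [e] <;> omega
  · intro a b c ha hc hb1
    rw [Fin.lt_def, Fin.lt_def, hx, hx, hx, show a.val = n - 5 by omega,
      show c.val = n - 4 by omega]
    have : b.val = 0 ∨ b.val = 1 ∨ b.val = 2 := by omega
    rcases this with e | e | e <;> rw [e] <;> omega
  · intro z hz
    rw [hx, show z.val = n - 1 by omega]; omega
  · refine ⟨⟨4, by omega⟩, ⟨5, by omega⟩, rfl, by simp only; omega, by simp only; omega,
      by simp only; omega, by simp only; omega, fun z hz => Or.inl ?_⟩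
    rw [Fin.lt_def, hx, hx, hx, show z.val = n - 1 by omega]
    simp only; omega
  · intro j; rw [hrc]
    have h1 := xinj (n - 1 - j.val) (i + 1) (by omega) (by omega)
    have h2 := xlt (n - 1 - j.val) (by omega)
    have := j.2
    refine ⟨fun e => ?_, fun e => by omega⟩
    rw [show n - 1 - j.val = i + 1 by omega]; omega
  · intro j; rw [hrc]
    have h1 := xinj (n - 1 - j.val) i (by omega) (by omega)
    have h2 := xlt (n - 1 - j.val) (by omega)
    have := j.2
    refine ⟨fun e => ?_, fun e => by omega⟩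
    rw [show n - 1 - j.val = i by omega]; omega
  · intro j; rw [hrc]
    have h1 := xinj (n - 1 - j.val) (n - 1) (by omega) (by omega)
    have h2 := xlt (n - 1 - j.val) (by omega)
    have := j.2
    refine ⟨fun e => ?_, fun e => by omega⟩
    rw [show n - 1 - j.val = n - 1 by omega]
  · intro j; rw [hrc]
    have h1 := xinj (n - 1 - j.val) (n - 2) (by omega) (by omega)
    have h2 := xlt (n - 1 - j.val) (by omega)
    have := j.2
    refine ⟨fun e => ?_, fun e => by omega⟩
    rw [show n - 1 - j.val = n - 2 by omega]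
  · intro a b c ha hc hb1 hb2
    rw [Fin.lt_def, Fin.lt_def, hrc, hrc, hrc, show n - 1 - a.val = 1 by omega,
      show n - 1 - c.val = 0 by omega]
    have : n - 1 - b.val = 5 ∨ n - 1 - b.val = 6 ∨ n - 1 - b.val = 7 := by omega
    rcases this with e | e | e <;> rw [e] <;> omega
  · intro a b c ha hc hb1
    rw [Fin.lt_def, Fin.lt_def, hrc, hrc, hrc, show n - 1 - a.val = 4 by omega,
      show n - 1 - c.val = 3 by omega]
    have : n - 1 - b.val = n - 1 ∨ n - 1 - b.val = n - 2 ∨ n - 1 - b.val = n - 3 := by omega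
    rcases this with e | e | e <;> rw [e] <;> omega
  · intro z hz
    rw [hrc, show n - 1 - z.val = 0 by omega]; omega
  · refine ⟨⟨n - 5, by omega⟩, ⟨n - 4, by omega⟩, by simp only; omega, by simp only; omega,
      by simp only; omega, by simp only; omega, by simp only; omega, fun z hz => Or.inr ?_⟩
    rw [Fin.lt_def, hrc, hrc, hrc, show n - 1 - z.val = 0 by omega]
    simp only
    rw [show n - 1 - (n - 5) = 4 by omega, show n - 1 - (n - 4) = 3 by omega]
    omega

end Pool.Agent.H239Z.Split
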