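import Mathlib
import Pool.Agent.H239Z.SplitMain

set_option autoImplicit false

namespace Pool.Agent.H239Z.Split

open Equiv Finset

variable {m : ℕ}

/-- inflate the entry at position `i` into an ascending pair -/
def infl (σ : Perm (Fin m)) (i : Fin m) : Perm (Fin (m + 1)) :=
  (finSuccEquiv' i.succ).trans (σ.optionCongr.trans (finSuccEquiv' (σ i).succ).symm)

lemma infl_succ (σ : Perm (Fin m)) (i : Fin m) : infl σ i i.succ = (σ i).succ := by
  simp [infl]

lemma infl_above (σ : Perm (Fin m)) (i j : Fin m) :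
    infl σ i (i.succ.succAbove j) = (σ i).succ.succAbove (σ j) := by
  simp [infl]

lemma infl_inj (i : Fin m) : Function.Injective (fun σ => infl σ i) := by
  intro σ σ' h
  simp only at h
  have h1 : σ i = σ' i := by
    have := infl_succ σ i
    rw [h, infl_succ] at this
    exact (Fin.succ_injective _ this).symm
  ext j
  have := infl_above σ i j
  rw [h, infl_above, h1] at this
  rw [Fin.succAbove_right_injective this]

lemma val_succAbove (p : Fin (m + 1)) (j : Fin m) :
    (p.succAbove j).val = if j.val < p.val then j.val else j.val + 1 := by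
  unfold Fin.succAbove
  split_ifs with h1 h2 h2
  · rfl
  · exact absurd h1 h2
  · exact absurd h2 h1
  · rfl

def up (v u : ℕ) : ℕ := if u ≤ v then u else u + 1

lemma xv_infl_above (σ : Perm (Fin m)) (i : Fin m) (j : Fin m) :
    xv (infl σ i) (if j.val ≤ i.val then j.val else j.val + 1) = up (xv σ i) (xv σ j) := by
  have h := congrArg Fin.val (infl_above σ i j)
  rw [xv_val, val_succAbove, val_succAbove, Fin.val_succ, Fin.val_succ, xv_val, xv_val] at h
  simp only [Nat.lt_succ_iff] at h
  exact h

lemma xv_infl_le (σ : Perm (Fin m)) (i : Fin m) {k : ℕ} (hk : k ≤ i.val) :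
    xv (infl σ i) k = up (xv σ i) (xv σ k) := by
  have := xv_infl_above σ i ⟨k, by omega⟩
  simpa [hk] using this

lemma xv_infl_gt (σ : Perm (Fin m)) (i : Fin m) {k : ℕ} (hk : i.val < k) (hk' : k < m) :
    xv (infl σ i) (k + 1) = up (xv σ i) (xv σ k) := by
  have := xv_infl_above σ i ⟨k, hk'⟩
  simpa [not_le.2 hk] using this

lemma xv_infl_succ (σ : Perm (Fin m)) (i : Fin m) :
    xv (infl σ i) (i.val + 1) = xv σ i + 1 := by
  have h := congrArg Fin.val (infl_succ σ i)
  rwa [xv_val, Fin.val_succ, Fin.val_succ, xv_val] at h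

lemma infl_pair (σ : Perm (Fin m)) (i : Fin m) :
    xv (infl σ i) (i.val + 1) = xv (infl σ i) i.val + 1 := by
  rw [xv_infl_succ, xv_infl_le σ i le_rfl]
  simp [up]

lemma infl_split {σ : Perm (Fin m)} {i : Fin m} (hi : 8 ≤ i.val) (hi' : i.val + 9 ≤ m)
    (h : Chain m (xv σ) i) : ¬ AvUnsplittable (infl σ i) := by
  apply split_of_chain hi (by omega) (infl_pair σ i)
  obtain ⟨c1, c2, c3, c4, c5, c6, c7, c8, c9, c10, c11, c12, c13, c14, c15, c16⟩ := h
  have a : ∀ k, k ≤ 7 → xv σ k ≤ xv σ i → xv (infl σ i) k = xv σ k := by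
    intro k hk h
    rw [xv_infl_le σ i (by omega), up, if_pos h]
  have b : ∀ k, 1 ≤ k → k ≤ 8 → xv σ (m - k) ≤ xv σ i →
      xv (infl σ i) (m + 1 - k) = xv σ (m - k) := by
    intro k hk hk' h
    rw [show m + 1 - k = m - k + 1 by omega, xv_infl_gt σ i (by omega) (by omega), up, if_pos h]
  have c : xv (infl σ i) i = xv σ i := by rw [xv_infl_le σ i le_rfl]; simp [up]
  have a0 := a 0 (by omega) (by omega)
  have a1 := a 1 (by omega) (by omega)
  have a2 := a 2 (by omega) (by omega)
  have a3 := a 3 (by omega) (by omega)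
  have a4 := a 4 (by omega) (by omega)
  have a5 := a 5 (by omega) (by omega)
  have a6 := a 6 (by omega) (by omega)
  have a7 := a 7 (by omega) (by omega)
  have b1 := b 1 (by omega) (by omega) (by linarith)
  have b2 := b 2 (by omega) (by omega) (by linarith)
  have b3 := b 3 (by omega) (by omega) (by linarith)
  have b4 := b 4 (by omega) (by omega) (by linarith)
  have b5 := b 5 (by omega) (by omega) (by linarith)
  have b6 := b 6 (by omega) (by omega) (by linarith)
  have b7 := b 7 (by omega) (by omega) (by linarith)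
  have b8 := b 8 (by omega) (by omega) (by linarith)
  constructor <;> simp only [a0, a1, a2, a3, a4, a5, a6, a7, b1, b2, b3, b4, b5, b6, b7, b8, c] <;>
    assumption

lemma infl_pair_gt {σ : Perm (Fin m)} {i : Fin m} {j : ℕ} (hj : i.val < j) (hj' : j + 1 < m)
    (h : xv (infl σ i) (j + 1 + 1) = xv (infl σ i) (j + 1) + 1) :
    xv σ (j + 1) = xv σ j + 1 := by
  rw [xv_infl_gt σ i (by omega) hj', xv_infl_gt σ i hj (by omega)] at h
  have h1 := xv_inj σ j i (by omega) i.2
  have h2 := xv_inj σ (j + 1) i (by omega) i.2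
  unfold up at h
  split_ifs at h <;> omega

open Classical in
lemma card_sorted {k : ℕ} (e : Fin k ↪ Fin m) :
    m.factorial ≤ (univ.filter fun σ : Perm (Fin m) => StrictMono (σ ∘ e)).card * k.factorial := by
  have h1 : (univ : Finset (Perm (Fin m))).card = m.factorial := by
    simp [Fintype.card_perm]
  have h2 : (univ : Finset (Perm (Fin k))).card = k.factorial := by
    simp [Fintype.card_perm]
  rw [← h1, ← h2, ← card_product]
  apply card_le_card_of_surjOn (fun p => p.1 * (p.2.viaEmbedding e)⁻¹)
  intro σ _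
  refine ⟨(σ * (Tuple.sort (σ ∘ e)).viaEmbedding e, Tuple.sort (σ ∘ e)), ?_, by simp⟩
  simp only [coe_product, coe_filter, mem_univ, true_and, coe_univ, Set.mem_prod, Set.mem_univ,
    and_true]
  have h3 : (⇑(σ * (Tuple.sort (σ ∘ e)).viaEmbedding e) ∘ e) = (σ ∘ e) ∘ Tuple.sort (σ ∘ e) := by
    ext a
    simp [Perm.viaEmbedding_apply]
  show StrictMono (⇑(σ * (Tuple.sort (σ ∘ e)).viaEmbedding e) ∘ e)
  rw [h3]
  exact (Tuple.monotone_sort _).strictMono_of_injective
    ((σ.injective.comp e.injective).comp (Tuple.sort (σ ∘ e)).injective)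

def posl (m i : ℕ) : Fin 17 → ℕ :=
  ![3, m - 5, m - 3, m - 2, m - 8, m - 7, m - 6, 0, 5, 6, 7, 1, 2, m - 1, m - 4, 4, i]

lemma posl_lt {i : ℕ} (hi : 8 ≤ i) (hi' : i + 9 ≤ m) (a : Fin 17) : posl m i a < m := by
  fin_cases a <;> simp [posl] <;> omega

/-- a left inverse of the list of positions -/
def posi (m k : ℕ) : ℕ :=
  if k = 3 then 0 else if k = 0 then 7 else if k = 5 then 8 else if k = 6 then 9 else
  if k = 7 then 10 else if k = 1 then 11 else if k = 2 then 12 else if k = 4 then 15 else
  if k + 5 = m then 1 else if k + 3 = m then 2 else if k + 2 = m then 3 else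
  if k + 8 = m then 4 else if k + 7 = m then 5 else if k + 6 = m then 6 else
  if k + 1 = m then 13 else if k + 4 = m then 14 else 16

lemma posi_posl {i : ℕ} (hi : 8 ≤ i) (hi' : i + 9 ≤ m) (a : Fin 17) :
    posi m (posl m i a) = a.val := by
  fin_cases a
  · show posi m (3) = 0
    unfold posi
    repeat first | rw [if_pos (by omega)] | rw [if_neg (by omega)]
  · show posi m (m - 5) = 1
    unfold posi
    repeat first | rw [if_pos (by omega)] | rw [if_neg (by omega)]
  · show posi m (m - 3) = 2
    unfold posi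
    repeat first | rw [if_pos (by omega)] | rw [if_neg (by omega)]
  · show posi m (m - 2) = 3
    unfold posi
    repeat first | rw [if_pos (by omega)] | rw [if_neg (by omega)]
  · show posi m (m - 8) = 4
    unfold posi
    repeat first | rw [if_pos (by omega)] | rw [if_neg (by omega)]
  · show posi m (m - 7) = 5
    unfold posi
    repeat first | rw [if_pos (by omega)] | rw [if_neg (by omega)]
  · show posi m (m - 6) = 6
    unfold posi
    repeat first | rw [if_pos (by omega)] | rw [if_neg (by omega)]
  · show posi m (0) = 7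
    unfold posi
    repeat first | rw [if_pos (by omega)] | rw [if_neg (by omega)]
  · show posi m (5) = 8
    unfold posi
    repeat first | rw [if_pos (by omega)] | rw [if_neg (by omega)]
  · show posi m (6) = 9
    unfold posi
    repeat first | rw [if_pos (by omega)] | rw [if_neg (by omega)]
  · show posi m (7) = 10
    unfold posi
    repeat first | rw [if_pos (by omega)] | rw [if_neg (by omega)]
  · show posi m (1) = 11
    unfold posi
    repeat first | rw [if_pos (by omega)] | rw [if_neg (by omega)]
  · show posi m (2) = 12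
    unfold posi
    repeat first | rw [if_pos (by omega)] | rw [if_neg (by omega)]
  · show posi m (m - 1) = 13
    unfold posi
    repeat first | rw [if_pos (by omega)] | rw [if_neg (by omega)]
  · show posi m (m - 4) = 14
    unfold posi
    repeat first | rw [if_pos (by omega)] | rw [if_neg (by omega)]
  · show posi m (4) = 15
    unfold posi
    repeat first | rw [if_pos (by omega)] | rw [if_neg (by omega)]
  · show posi m (i) = 16
    unfold posi
    repeat first | rw [if_pos (by omega)] | rw [if_neg (by omega)]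

open Classical in
lemma card_chain {i : ℕ} (hi : 8 ≤ i) (hi' : i + 9 ≤ m) :
    m.factorial ≤ (univ.filter fun σ : Perm (Fin m) => Chain m (xv σ) i).card *
      (17 : ℕ).factorial := by
  let e : Fin 17 ↪ Fin m := ⟨fun a => ⟨posl m i a, posl_lt hi hi' a⟩, fun a b h => by
    have h1 : posl m i a = posl m i b := congrArg Fin.val h
    apply Fin.ext
    rw [← posi_posl hi hi' a, ← posi_posl hi hi' b, h1]⟩
  refine (card_sorted e).trans (Nat.mul_le_mul_right _ (card_le_card ?_))
  intro σ hσ
  simp only [mem_filter, mem_univ, true_and] at hσ ⊢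
  have h : ∀ a b : Fin 17, a < b → xv σ (posl m i a) < xv σ (posl m i b) := by
    intro a b hab
    have := hσ hab
    rw [Fin.lt_def] at this
    simp only [Function.comp] at this
    rwa [xv_val, xv_val] at this
  exact ⟨h 0 1 (by decide), h 1 2 (by decide), h 2 3 (by decide), h 3 4 (by decide),
    h 4 5 (by decide), h 5 6 (by decide), h 6 7 (by decide), h 7 8 (by decide),
    h 8 9 (by decide), h 9 10 (by decide), h 10 11 (by decide), h 11 12 (by decide),
    h 12 13 (by decide), h 13 14 (by decide), h 14 15 (by decide), h 15 16 (by decide)⟩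

lemma card_pair {j : ℕ} (hj : j + 1 < m) :
    (univ.filter fun σ : Perm (Fin m) => xv σ (j + 1) = xv σ j + 1).card * (m - 1) ≤
      m.factorial := by
  let J : Fin m := ⟨j, by omega⟩
  let J' : Fin m := ⟨j + 1, hj⟩
  have h1 : (univ : Finset (Perm (Fin m))).card = m.factorial := by
    simp [Fintype.card_perm]
  have h2 : ((univ : Finset (Fin m)).erase J).card = m - 1 := by
    rw [card_erase_of_mem (mem_univ _)]; simp
  rw [← h1, ← h2, ← card_product]
  apply card_le_card_of_injOn (fun p => p.1 * swap J' p.2) (fun _ _ => mem_coe.2 (mem_univ _))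
  have key : ∀ (σ : Perm (Fin m)) (k : Fin m), xv σ (j + 1) = xv σ j + 1 → k ≠ J →
      ((σ * swap J' k) k).val = ((σ * swap J' k) J).val + 1 := by
    intro σ k h hk
    have hJ : J ≠ J' := fun h => by have := congrArg Fin.val h; simp [J, J'] at this
    simp only [Perm.coe_mul, Function.comp, swap_apply_right]
    rw [swap_apply_of_ne_of_ne hJ hk.symm, xv_val, xv_val]
    exact h
  rintro ⟨σ, k⟩ hp ⟨σ', k'⟩ hp' h
  simp only [coe_product, coe_filter, mem_univ, true_and, coe_erase, coe_univ, Set.mem_prod,
    Set.mem_sdiff, Set.mem_univ, Set.mem_singleton_iff] at hp hp'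
  simp only at h
  have a1 := key σ k hp.1 hp.2
  have a2 := key σ' k' hp'.1 hp'.2
  rw [h] at a1
  have hk : k = k' := (σ' * swap J' k').injective (Fin.ext (a1.trans a2.symm))
  subst hk
  rw [mul_right_cancel h]

open Classical in
theorem card_split (L : ℕ) (hL : L + 17 ≤ m) :
    (L : ℝ) * (m.factorial / (17 : ℕ).factorial - L * (m.factorial / (m - 1 : ℕ))) ≤
      ((univ.filter fun π : Perm (Fin (m + 1)) => ¬ AvUnsplittable π).card : ℝ) := by
  let I : Fin L → Fin m := fun t => ⟨8 + t.val, by have := t.2; omega⟩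
  let A : ℕ → Finset (Perm (Fin m)) := fun j => univ.filter fun σ => xv σ (j + 1) = xv σ j + 1
  let C : Fin L → Finset (Perm (Fin m)) := fun t => univ.filter fun σ => Chain m (xv σ) (I t)
  let F : Fin L → Finset (Perm (Fin m)) := fun t => C t \ (range L).biUnion fun u => A (7 + u)
  have hA : ∀ u ∈ range L, ((A (7 + u)).card : ℝ) ≤ m.factorial / (m - 1 : ℕ) := by
    intro u hu
    rw [mem_range] at hu
    have h1 := card_pair (m := m) (j := 7 + u) (by omega)
    have h2 : (0 : ℝ) < (m - 1 : ℕ) := by exact_mod_cast (by omega : 0 < m - 1)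
    rw [le_div_iff₀ h2]
    exact_mod_cast h1
  have hB : (((range L).biUnion fun u => A (7 + u)).card : ℝ) ≤
      L * (m.factorial / (m - 1 : ℕ)) := by
    have h1 : (((range L).biUnion fun u => A (7 + u)).card : ℝ) ≤
        ∑ u ∈ range L, ((A (7 + u)).card : ℝ) := by exact_mod_cast card_biUnion_le
    refine h1.trans ((sum_le_card_nsmul _ _ _ hA).trans ?_)
    simp
  have hF : ∀ t, m.factorial / (17 : ℕ).factorial - L * (m.factorial / (m - 1 : ℕ)) ≤
      ((F t).card : ℝ) := by
    intro t
    have h1 := card_chain (m := m) (i := (I t).val) (by simp [I]) (by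
      have := t.2; simp only [I]; omega)
    have h2 : (m.factorial : ℝ) / (17 : ℕ).factorial ≤ (C t).card := by
      rw [div_le_iff₀ (by positivity)]
      exact_mod_cast h1
    have h3 : ((C t).card : ℝ) ≤ (F t).card + ((range L).biUnion fun u => A (7 + u)).card := by
      exact_mod_cast card_le_card_sdiff_add_card
    linarith
  have hS : ((univ.sigma F).card : ℝ) ≤
      ((univ.filter fun π : Perm (Fin (m + 1)) => ¬ AvUnsplittable π).card : ℝ) := by
    have lt : ∀ (t t' : Fin L) (σ σ' : Perm (Fin m)), σ ∈ F t → t < t' →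
        infl σ (I t) ≠ infl σ' (I t') := by
      intro t t' σ σ' hσ htt h
      have h1 := infl_pair σ' (I t')
      rw [← h] at h1
      rw [Fin.lt_def] at htt
      have ht' := t'.2
      by_cases hadj : t'.val = t.val + 1
      · have h2 := xv_infl_succ σ (I t)
        have h3 := xv_infl_gt σ (I t) (k := 8 + t.val + 1) (by simp [I]) (by omega)
        have h4 : xv σ (8 + t.val + 1) = xv σ (8 + t.val) + 1 := by
          simp only [I] at h1 h2 h3
          rw [hadj, ← add_assoc, h2, h3] at h1
          unfold up at h1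
          split_ifs at h1 <;> omega
        apply (mem_sdiff.1 hσ).2
        refine mem_biUnion.2 ⟨t'.val, mem_range.2 ht', ?_⟩
        simp only [A, mem_filter, mem_univ, true_and]
        rw [show 7 + t'.val = 8 + t.val by omega]
        exact h4
      · apply (mem_sdiff.1 hσ).2
        refine mem_biUnion.2 ⟨t'.val, mem_range.2 ht', ?_⟩
        simp only [A, mem_filter, mem_univ, true_and]
        apply infl_pair_gt (i := I t) (by simp only [I]; omega) (by omega)
        simp only [I] at h1 ⊢
        rw [show 7 + t'.val + 1 = 8 + t'.val by omega]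
        exact h1
    norm_cast
    apply card_le_card_of_injOn (fun p => infl p.2 (I p.1))
    · rintro ⟨t, σ⟩ hp
      simp only [coe_filter, mem_univ, true_and]
      have h1 : σ ∈ F t := (mem_sigma.1 (mem_coe.1 hp)).2
      have h2 := (mem_filter.1 (mem_sdiff.1 h1).1).2
      exact infl_split (by simp [I]) (by have := t.2; simp only [I]; omega) h2
    · rintro ⟨t, σ⟩ hp ⟨t', σ'⟩ hp' h
      have h1 : σ ∈ F t := (mem_sigma.1 (mem_coe.1 hp)).2
      have h2 : σ' ∈ F t' := (mem_sigma.1 (mem_coe.1 hp')).2
      simp only at h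
      rcases lt_trichotomy t t' with h3 | h3 | h3
      · exact absurd h (lt t t' σ σ' h1 h3)
      · subst h3
        rw [infl_inj (I t) h]
      · exact absurd h.symm (lt t' t σ' σ h2 h3)
  refine le_trans ?_ hS
  rw [card_sigma]
  push_cast
  have := card_nsmul_le_sum (univ : Finset (Fin L)) (fun t => ((F t).card : ℝ)) _
    (fun t _ => hF t)
  simpa using this

theorem prob_le : ∃ ε : ℝ, 0 < ε ∧ ∀ᶠ n in Filter.atTop, prob n ≤ 1 - ε := by
  classical
  obtain ⟨N, hN⟩ : ∃ N : ℕ, N = (17 : ℕ).factorial := ⟨_, rfl⟩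
  have hN1 : 1 ≤ N := by rw [hN]; exact Nat.factorial_pos _
  have hN0 : (0 : ℝ) < N := by exact_mod_cast hN1
  refine ⟨1 / (8 * N ^ 2), by positivity, Filter.eventually_atTop.2 ⟨4 * N + 40, fun n hn => ?_⟩⟩
  obtain ⟨m, rfl⟩ : ∃ m, n = m + 1 := ⟨n - 1, by omega⟩
  obtain ⟨L, hL⟩ : ∃ L, L = (m - 1) / (2 * N) := ⟨_, rfl⟩
  have l1 : 2 * N * L ≤ m - 1 := by rw [hL]; exact Nat.mul_div_le _ _
  have l2 : m - 1 < 2 * N * (L + 1) := by rw [hL]; exact Nat.lt_mul_div_succ _ (by omega)
  have l3 : 2 * L ≤ 2 * N * L := by nlinarith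
  have h := card_split (m := m) L (by omega)
  rw [← hN] at h
  have hm : (0 : ℝ) < (m - 1 : ℕ) := by exact_mod_cast (by omega : 0 < m - 1)
  have hf : (0 : ℝ) < m.factorial := by positivity
  have k1 : (L : ℝ) * (m.factorial / (m - 1 : ℕ)) ≤ m.factorial / (2 * N) := by
    rw [← mul_div_assoc, div_le_div_iff₀ hm (by positivity)]
    have : (2 * N * L : ℝ) ≤ (m - 1 : ℕ) := by exact_mod_cast l1
    nlinarith
  have k2 : (m + 1 : ℝ) ≤ 4 * N * L := by
    have : m + 1 ≤ 4 * N * L := by
      have : 2 * N * (L + 1) = 2 * N * L + 2 * N := by ring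
      have : 4 * N * L = 2 * (2 * N * L) := by ring
      omega
    exact_mod_cast this
  have k3 : (m.factorial : ℝ) / N - m.factorial / (2 * N) = m.factorial / (2 * N) := by
    field_simp; ring
  have k4 : (L : ℝ) * (m.factorial / (2 * N)) ≤
      ((univ.filter fun π : Perm (Fin (m + 1)) => ¬ AvUnsplittable π).card : ℝ) := by
    refine le_trans (mul_le_mul_of_nonneg_left ?_ (by positivity)) h
    linarith
  have k5 : ((m + 1).factorial : ℝ) / (8 * N ^ 2) ≤ L * (m.factorial / (2 * N)) := by
    rw [Nat.factorial_succ, ← mul_div_assoc, div_le_div_iff₀ (by positivity) (by positivity)]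
    push_cast
    have := mul_le_mul_of_nonneg_right k2 (show (0 : ℝ) ≤ m.factorial * (2 * N) by positivity)
    nlinarith
  have k6 : (Nat.card {π : Perm (Fin (m + 1)) // AvUnsplittable π} : ℝ) +
      ((univ.filter fun π : Perm (Fin (m + 1)) => ¬ AvUnsplittable π).card : ℝ) =
      (m + 1).factorial := by
    rw [Nat.card_eq_fintype_card, Fintype.card_subtype]
    have := card_filter_add_card_filter_not (s := (univ : Finset (Perm (Fin (m + 1)))))
      (fun π => AvUnsplittable π)
    rw [card_univ, Fintype.card_perm, Fintype.card_fin] at this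
    exact_mod_cast this
  rw [prob, div_le_iff₀ (by positivity)]
  have : (1 - 1 / (8 * (N : ℝ) ^ 2)) * ((m + 1).factorial : ℝ) =
      (m + 1).factorial - ((m + 1).factorial : ℝ) / (8 * N ^ 2) := by ring
  linarith

end Pool.Agent.H239Z.Split
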